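import Pool.Agent.H62.BS.Defs

/-!
Borel marker sets with boundedly many colours (BS-1, helper6 for helper62, MP_6540cb_lc).
-/

set_option autoImplicit false

open MeasureTheory Topology Filter Set

namespace Pool.Agent.H62.BS

/-- clopen cylinder given by a finite set `F` of coordinates and the subset `P` of those equal to
`true` -/
def mkCyl {d : ℕ} (F P : Finset (G d)) : Set (FreePart d) :=
  {x | ∀ h ∈ F, (x.1 h = true ↔ h ∈ P)}

theorem mkCyl_measurable {d : ℕ} (F P : Finset (G d)) : MeasurableSet (mkCyl F P) := by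
  have h1 : mkCyl F P = ⋂ h ∈ F, {x : FreePart d | (x.1 h = true ↔ h ∈ P)} := by
    ext x
    simp [mkCyl]
  rw [h1]
  refine Finset.measurableSet_biInter _ fun h _ => ?_
  have hm : Measurable fun x : FreePart d => x.1 h :=
    (measurable_pi_apply h).comp measurable_subtype_coe
  by_cases hP : h ∈ P
  · have : {x : FreePart d | (x.1 h = true ↔ h ∈ P)} = (fun x : FreePart d => x.1 h) ⁻¹' {true} := by
      ext x
      simp [hP]
    rw [this]
    exact hm (measurableSet_singleton _)
  · have : {x : FreePart d | (x.1 h = true ↔ h ∈ P)} =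
        (fun x : FreePart d => x.1 h) ⁻¹' {false} := by
      ext x
      simp [hP]
    rw [this]
    exact hm (measurableSet_singleton _)

/-- countably many Borel sets covering the free part, each of which meets every orbit in a
`ball d r`-separated set -/
theorem mk_cover (d r : ℕ) : ∃ U : ℕ → Set (FreePart d), (∀ m, MeasurableSet (U m)) ∧
    (∀ m x g, g ∈ ball d r → x ∈ U m → act g x ∈ U m → g = 0) ∧ ∀ x, ∃ m, x ∈ U m := by
  classical
  obtain ⟨e, he⟩ := exists_injective_nat (Finset (G d) × Finset (G d))
  refine ⟨fun m => {x | ∃ q : Finset (G d) × Finset (G d), (e q = m ∧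
    ∀ y g, g ∈ ball d r → y ∈ mkCyl q.1 q.2 → act g y ∈ mkCyl q.1 q.2 → g = 0) ∧
      x ∈ mkCyl q.1 q.2}, ?_, ?_, ?_⟩
  · intro m
    have h1 : {x | ∃ q : Finset (G d) × Finset (G d), (e q = m ∧
        ∀ y g, g ∈ ball d r → y ∈ mkCyl q.1 q.2 → act g y ∈ mkCyl q.1 q.2 → g = 0) ∧
          x ∈ mkCyl q.1 q.2} = ⋃ q : Finset (G d) × Finset (G d), ⋃ (_ : e q = m ∧
        ∀ y g, g ∈ ball d r → y ∈ mkCyl q.1 q.2 → act g y ∈ mkCyl q.1 q.2 → g = 0),
          mkCyl q.1 q.2 := by
      ext x
      simp only [mem_ofPred_eq, mem_iUnion, exists_prop]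
    beta_reduce
    rw [h1]
    exact MeasurableSet.iUnion fun q => MeasurableSet.iUnion fun _ => mkCyl_measurable _ _
  · rintro m x g hg ⟨q, ⟨hq1, hq2⟩, hx⟩ ⟨q', ⟨hq1', hq2'⟩, hx'⟩
    have : q = q' := he (hq1.trans hq1'.symm)
    subst this
    exact hq2 x g hg hx hx'
  · intro x
    have hch : ∀ g : G d, ∃ h : G d, g ≠ 0 → x.1 (h + g) ≠ x.1 h := by
      intro g
      by_cases hg : g = 0
      · exact ⟨0, fun h => absurd hg h⟩
      · have h1 := x.2 g hg
        obtain ⟨h, hh⟩ := Function.ne_iff.1 h1
        exact ⟨h, fun _ => hh⟩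
    choose t ht using hch
    set F : Finset (G d) := (ball d r).image t ∪ (ball d r).image (fun g => t g + g) with hF
    set P : Finset (G d) := F.filter (fun h => x.1 h = true) with hP
    have hagree : ∀ y ∈ mkCyl F P, ∀ h ∈ F, y.1 h = x.1 h := by
      intro y hy h hh
      have h1 := hy h hh
      rw [hP, Finset.mem_filter] at h1
      have h2 : (y.1 h = true ↔ x.1 h = true) := by
        rw [h1]
        exact ⟨fun h => h.2, fun h => ⟨hh, h⟩⟩
      rcases hb : x.1 h with _ | _ <;> rcases hc : y.1 h with _ | _ <;> simp_all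
    refine ⟨e (F, P), (F, P), ⟨rfl, ?_⟩, ?_⟩
    · intro y g hg hy hgy
      by_contra hne
      have h1 : t g ∈ F := Finset.mem_union_left _ (Finset.mem_image_of_mem t hg)
      have h2 : t g + g ∈ F :=
        Finset.mem_union_right _ (Finset.mem_image_of_mem (fun g => t g + g) hg)
      have h3 := hagree _ hgy (t g) h1
      rw [act_val] at h3
      have h4 := hagree _ hy (t g + g) h2
      exact ht g hne (h4.symm.trans h3)
    · intro h hh
      rw [hP, Finset.mem_filter]
      exact ⟨fun h1 => ⟨hh, h1⟩, fun h1 => h1.2⟩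

section rec
variable {d : ℕ} (R : ℕ) (U : ℕ → Set (FreePart d))

/-- the colour `i` is not used in the `6R`-ball of `x` -/
def mkFree (c : FreePart d → Option ℕ) (x : FreePart d) (i : ℕ) : Prop :=
  ∀ g ∈ ball d (6 * R), c (act g x) ≠ some i

/-- the least free colour -/
noncomputable def mkLeast (c : FreePart d → Option ℕ) (x : FreePart d) : ℕ :=
  sInf {i | mkFree R c x i}

/-- the point `x` gets a colour in this step -/
def mkNew (c : FreePart d → Option ℕ) (V : Set (FreePart d)) (x : FreePart d) : Prop :=
  c x = none ∧ x ∈ V ∧ ∀ g ∈ ball d R, c (act g x) = none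

open Classical in
/-- the recursion -/
noncomputable def mkCol : ℕ → FreePart d → Option ℕ
  | 0, _ => none
  | m + 1, x => if mkNew R (mkCol m) (U m) x then some (mkLeast R (mkCol m) x) else mkCol m x

theorem mkCol_new {m : ℕ} {x : FreePart d} (h : mkNew R (mkCol R U m) (U m) x) :
    mkCol R U (m + 1) x = some (mkLeast R (mkCol R U m) x) := by
  rw [mkCol, if_pos h]

theorem mkCol_old {m : ℕ} {x : FreePart d} (h : ¬ mkNew R (mkCol R U m) (U m) x) :
    mkCol R U (m + 1) x = mkCol R U m x := by
  rw [mkCol, if_neg h]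

theorem mkFree_nonempty (c : FreePart d → Option ℕ) (x : FreePart d) :
    {i | mkFree R c x i}.Nonempty := by
  classical
  set T : Finset (Option ℕ) := (ball d (6 * R)).image (fun g => c (act g x)) with hT
  have hfin : (T.preimage some (Option.some_injective ℕ).injOn : Set ℕ).Finite :=
    Finset.finite_toSet _
  obtain ⟨i, hi⟩ := hfin.exists_notMem
  refine ⟨i, fun g hg he => hi ?_⟩
  rw [Finset.mem_coe, Finset.mem_preimage, ← he, hT]
  exact Finset.mem_image_of_mem _ hg

theorem mkFree_least (c : FreePart d → Option ℕ) (x : FreePart d) :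
    mkFree R c x (mkLeast R c x) := Nat.sInf_mem (mkFree_nonempty R c x)

theorem mkCol_mono_succ {m : ℕ} {x : FreePart d} {i : ℕ} (h : mkCol R U m x = some i) :
    mkCol R U (m + 1) x = some i := by
  rw [mkCol_old, h]
  intro h1
  rw [h1.1] at h
  exact absurd h (by simp)

theorem mkCol_mono {m n : ℕ} (hmn : m ≤ n) {x : FreePart d} {i : ℕ}
    (h : mkCol R U m x = some i) : mkCol R U n x = some i := by
  induction n, hmn using Nat.le_induction with
  | base => exact h
  | succ n _ ih => exact mkCol_mono_succ R U ih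

theorem neg_mem_ball {r : ℕ} {g : G d} (h : g ∈ ball d r) : -g ∈ ball d r := by
  rw [mem_ball] at h ⊢
  intro j
  rw [Pi.neg_apply, abs_neg]
  exact h j

theorem ball_mono {r s : ℕ} (h : r ≤ s) {g : G d} (hg : g ∈ ball d r) : g ∈ ball d s := by
  rw [mem_ball] at hg ⊢
  intro j
  have := hg j
  have h2 : (r : ℤ) ≤ s := by exact_mod_cast h
  linarith

theorem zero_mem_ball (r : ℕ) : (0 : G d) ∈ ball d r := by
  rw [mem_ball]
  intro j
  simp

theorem act_neg_act (g : G d) (x : FreePart d) : act (-g) (act g x) = x := by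
  rw [act_act, neg_add_cancel, act_zero]

variable {U}

/-- coloured points are separated -/
theorem mkCol_sep (hU : ∀ m x g, g ∈ ball d (6 * R) → x ∈ U m → act g x ∈ U m → g = 0) (m : ℕ) :
    ∀ x g, g ∈ ball d R → mkCol R U m x ≠ none → mkCol R U m (act g x) ≠ none → g = 0 := by
  induction m with
  | zero =>
    intro x g _ h1 _
    exact absurd rfl h1
  | succ m ih =>
    intro x g hg h1 h2
    by_cases hx : mkNew R (mkCol R U m) (U m) x <;>
      by_cases hgx : mkNew R (mkCol R U m) (U m) (act g x)
    · exact hU m x g (ball_mono (by omega) hg) hx.2.1 hgx.2.1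
    · rw [mkCol_old R U hgx] at h2
      exact absurd (hx.2.2 g hg) h2
    · rw [mkCol_old R U hx] at h1
      have := hgx.2.2 (-g) (neg_mem_ball hg)
      rw [act_neg_act] at this
      exact absurd this h1
    · rw [mkCol_old R U hx] at h1
      rw [mkCol_old R U hgx] at h2
      exact ih x g hg h1 h2

/-- the colouring is proper -/
theorem mkCol_proper (hU : ∀ m x g, g ∈ ball d (6 * R) → x ∈ U m → act g x ∈ U m → g = 0)
    (m : ℕ) : ∀ x g i, g ∈ ball d (6 * R) → mkCol R U m x = some i →
      mkCol R U m (act g x) = some i → g = 0 := by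
  induction m with
  | zero =>
    intro x g i _ h1 _
    exact absurd h1 (by simp [mkCol])
  | succ m ih =>
    intro x g i hg h1 h2
    by_cases hx : mkNew R (mkCol R U m) (U m) x <;>
      by_cases hgx : mkNew R (mkCol R U m) (U m) (act g x)
    · exact hU m x g hg hx.2.1 hgx.2.1
    · rw [mkCol_old R U hgx] at h2
      rw [mkCol_new R U hx] at h1
      have h3 := mkFree_least R (mkCol R U m) x g hg
      rw [h2, h1] at h3
      exact absurd rfl h3
    · rw [mkCol_old R U hx] at h1
      rw [mkCol_new R U hgx] at h2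
      have h3 := mkFree_least R (mkCol R U m) (act g x) (-g) (neg_mem_ball hg)
      rw [act_neg_act, h2, h1] at h3
      exact absurd rfl h3
    · rw [mkCol_old R U hx] at h1
      rw [mkCol_old R U hgx] at h2
      exact ih x g i hg h1 h2

/-- packing: a separated subset of the `6R`-ball has at most `12 ^ d` points -/
theorem mk_packing (T : Finset (G d)) (hT : T ⊆ ball d (6 * R))
    (hsep : ∀ g ∈ T, ∀ g' ∈ T, g' - g ∈ ball d R → g' = g) : T.card ≤ 12 ^ d := by
  classical
  have hR : (0 : ℤ) < (R : ℤ) + 1 := by positivity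
  set f : G d → (Fin d → ℤ) := fun g j => (g j + 6 * (R : ℤ)) / ((R : ℤ) + 1) with hf
  have hmaps : ∀ g ∈ T, f g ∈ Fintype.piFinset (fun _ : Fin d => Finset.Ico (0 : ℤ) 12) := by
    intro g hg
    rw [Fintype.mem_piFinset]
    intro j
    have h1 := (mem_ball.1 (hT hg)) j
    rw [abs_le] at h1
    push_cast at h1
    rw [Finset.mem_Ico]
    constructor
    · exact Int.ediv_nonneg (by linarith [h1.1]) hR.le
    · exact Int.ediv_lt_of_lt_mul hR (by linarith [h1.2])
  have hinj : Set.InjOn f T := by
    intro g hg g' hg' he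
    refine (hsep g hg g' hg' ?_).symm
    rw [mem_ball]
    intro j
    have h1 : (g j + 6 * (R : ℤ)) / ((R : ℤ) + 1) = (g' j + 6 * (R : ℤ)) / ((R : ℤ) + 1) :=
      congrFun he j
    have h2 := Int.emod_add_mul_ediv (g j + 6 * (R : ℤ)) ((R : ℤ) + 1)
    have h3 := Int.emod_add_mul_ediv (g' j + 6 * (R : ℤ)) ((R : ℤ) + 1)
    have h4 := Int.emod_nonneg (g j + 6 * (R : ℤ)) hR.ne'
    have h5 := Int.emod_nonneg (g' j + 6 * (R : ℤ)) hR.ne'
    have h6 := Int.emod_lt_of_pos (g j + 6 * (R : ℤ)) hR
    have h7 := Int.emod_lt_of_pos (g' j + 6 * (R : ℤ)) hR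
    rw [h1] at h2
    rw [Pi.sub_apply, abs_le]
    constructor <;> linarith
  calc T.card = (T.image f).card := (Finset.card_image_of_injOn hinj).symm
    _ ≤ (Fintype.piFinset (fun _ : Fin d => Finset.Ico (0 : ℤ) 12)).card :=
        Finset.card_le_card (fun y hy => by
          obtain ⟨g, hg, rfl⟩ := Finset.mem_image.1 hy
          exact hmaps g hg)
    _ = 12 ^ d := by
        rw [Fintype.card_piFinset]
        simp

theorem mkLeast_le (hU : ∀ m x g, g ∈ ball d (6 * R) → x ∈ U m → act g x ∈ U m → g = 0)
    (m : ℕ) (x : FreePart d) : mkLeast R (mkCol R U m) x ≤ 12 ^ d := by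
  classical
  set T : Finset (G d) := (ball d (6 * R)).filter (fun g => mkCol R U m (act g x) ≠ none) with hT
  have hcard : T.card ≤ 12 ^ d := by
    refine mk_packing R T (Finset.filter_subset _ _) ?_
    intro g hg g' hg' hb
    rw [hT, Finset.mem_filter] at hg hg'
    have h1 : act g' x = act (g' - g) (act g x) := by
      rw [act_act, sub_add_cancel]
    have h2 := mkCol_sep R hU m (act g x) (g' - g) hb hg.2 (by rw [← h1]; exact hg'.2)
    exact sub_eq_zero.1 h2
  have hex : ∃ i ∈ Finset.range (12 ^ d + 1),
      (some i : Option ℕ) ∉ T.image (fun g => mkCol R U m (act g x)) := by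
    by_contra hcon
    push Not at hcon
    have h1 : ((Finset.range (12 ^ d + 1)).image (some : ℕ → Option ℕ)) ⊆
        T.image (fun g => mkCol R U m (act g x)) := by
      intro y hy
      obtain ⟨i, hi, rfl⟩ := Finset.mem_image.1 hy
      exact hcon i hi
    have h2 := Finset.card_le_card h1
    rw [Finset.card_image_of_injective _ (Option.some_injective ℕ), Finset.card_range] at h2
    have h3 : (T.image (fun g => mkCol R U m (act g x))).card ≤ T.card := Finset.card_image_le
    omega
  obtain ⟨i, hi, hni⟩ := hex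
  have hfree : mkFree R (mkCol R U m) x i := by
    intro g hg he
    apply hni
    rw [Finset.mem_image]
    refine ⟨g, ?_, he⟩
    rw [hT, Finset.mem_filter]
    exact ⟨hg, by rw [he]; simp⟩
  have := Nat.sInf_le (show i ∈ {i | mkFree R (mkCol R U m) x i} from hfree)
  rw [Finset.mem_range] at hi
  unfold mkLeast
  omega

theorem mkCol_le (hU : ∀ m x g, g ∈ ball d (6 * R) → x ∈ U m → act g x ∈ U m → g = 0)
    (m : ℕ) : ∀ x i, mkCol R U m x = some i → i ≤ 12 ^ d := by
  induction m with
  | zero =>
    intro x i h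
    exact absurd h (by simp [mkCol])
  | succ m ih =>
    intro x i h
    by_cases hx : mkNew R (mkCol R U m) (U m) x
    · rw [mkCol_new R U hx] at h
      rw [← Option.some_injective ℕ h]
      exact mkLeast_le R hU m x
    · rw [mkCol_old R U hx] at h
      exact ih x i h

theorem mkFree_measurable {c : FreePart d → Option ℕ} (hc : ∀ v, MeasurableSet {x | c x = v})
    (i : ℕ) : MeasurableSet {x | mkFree R c x i} := by
  have h1 : {x | mkFree R c x i} = ⋂ g ∈ ball d (6 * R), (act g ⁻¹' {x | c x = some i})ᶜ := by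
    ext x
    simp [mkFree]
  rw [h1]
  exact Finset.measurableSet_biInter _ fun g _ => (measurable_act g (hc _)).compl

theorem mkNew_measurable {c : FreePart d → Option ℕ} (hc : ∀ v, MeasurableSet {x | c x = v})
    {V : Set (FreePart d)} (hV : MeasurableSet V) : MeasurableSet {x | mkNew R c V x} := by
  have h1 : {x | mkNew R c V x} = ({x | c x = none} ∩ V) ∩
      ⋂ g ∈ ball d R, (act g ⁻¹' {x | c x = none}) := by
    ext x
    simp [mkNew, and_assoc]
  rw [h1]
  exact ((hc _).inter hV).inter
    (Finset.measurableSet_biInter _ fun g _ => measurable_act g (hc _))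

theorem mkLeast_measurable {c : FreePart d → Option ℕ} (hc : ∀ v, MeasurableSet {x | c x = v})
    (i : ℕ) : MeasurableSet {x | mkLeast R c x = i} := by
  have h1 : {x | mkLeast R c x = i} = {x | mkFree R c x i} ∩
      ⋂ j ∈ Finset.range i, {x | mkFree R c x j}ᶜ := by
    ext x
    simp only [mem_ofPred_eq, mem_inter_iff, mem_iInter, mem_compl_iff, Finset.mem_range]
    constructor
    · rintro rfl
      refine ⟨mkFree_least R c x, fun j hj hf => ?_⟩
      exact absurd (Nat.sInf_le (show j ∈ {i | mkFree R c x i} from hf)) (not_le.2 hj)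
    · rintro ⟨hf, hlt⟩
      apply le_antisymm
      · exact Nat.sInf_le (show i ∈ {i | mkFree R c x i} from hf)
      · by_contra hcon
        exact hlt _ (not_le.1 hcon) (mkFree_least R c x)
  rw [h1]
  exact (mkFree_measurable R hc i).inter
    (Finset.measurableSet_biInter _ fun j _ => (mkFree_measurable R hc j).compl)

theorem mkCol_measurable (hUm : ∀ m, MeasurableSet (U m)) (m : ℕ) :
    ∀ v, MeasurableSet {x | mkCol R U m x = v} := by
  induction m with
  | zero =>
    intro v
    have : {x : FreePart d | mkCol R U 0 x = v} = {_x : FreePart d | none = v} := rfl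
    rw [this]
    exact MeasurableSet.const _
  | succ m ih =>
    intro v
    have hN := mkNew_measurable R ih (hUm m)
    have h1 : {x | mkCol R U (m + 1) x = v} =
        ({x | mkNew R (mkCol R U m) (U m) x} ∩ {x | some (mkLeast R (mkCol R U m) x) = v}) ∪
        ({x | mkNew R (mkCol R U m) (U m) x}ᶜ ∩ {x | mkCol R U m x = v}) := by
      ext x
      by_cases hx : mkNew R (mkCol R U m) (U m) x
      · simp [mkCol_new R U hx, hx]
      · simp [mkCol_old R U hx, hx]
    rw [h1]
    refine (hN.inter ?_).union (hN.compl.inter (ih v))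
    cases v with
    | none =>
      have : {x | some (mkLeast R (mkCol R U m) x) = none} = (∅ : Set (FreePart d)) := by
        ext x
        simp
      rw [this]
      exact MeasurableSet.empty
    | some i =>
      have : {x | some (mkLeast R (mkCol R U m) x) = some i} =
          {x | mkLeast R (mkCol R U m) x = i} := by
        ext x
        simp
      rw [this]
      exact mkLeast_measurable R ih i

end rec

/-- Borel markers with boundedly many colours (the bound `12 ^ d` does not depend on `R`). -/
theorem exists_markers (d R : ℕ) : ∃ col : FreePart d → Option ℕ,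
    (∀ v, MeasurableSet {x | col x = v}) ∧
    (∀ x i, col x = some i → i ≤ 12 ^ d) ∧
    (∀ x, ∃ g ∈ ball d R, col (act g x) ≠ none) ∧
    ∀ x, ∀ g ∈ ball d (6 * R), g ≠ 0 → ∀ i, col x = some i → col (act g x) ≠ some i := by
  classical
  obtain ⟨U, hUm, hU, hcov⟩ := mk_cover d (6 * R)
  set c := mkCol R U with hc
  set col : FreePart d → Option ℕ := fun x =>
    if h : ∃ m, c m x ≠ none then c (Nat.find h) x else none with hcol
  have hsome : ∀ x i, col x = some i ↔ ∃ m, c m x = some i := by
    intro x i
    constructor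
    · intro h
      by_cases hex : ∃ m, c m x ≠ none
      · refine ⟨Nat.find hex, ?_⟩
        rw [hcol] at h
        simpa [hex] using h
      · rw [hcol] at h
        simp [hex] at h
    · rintro ⟨m, hm⟩
      have hex : ∃ m, c m x ≠ none := ⟨m, by rw [hm]; simp⟩
      have h1 : col x = c (Nat.find hex) x := by
        rw [hcol]
        simp only [dif_pos hex]
      rw [h1]
      obtain ⟨j, hj⟩ := Option.ne_none_iff_exists'.1 (Nat.find_spec hex)
      have hle : Nat.find hex ≤ m := Nat.find_min' hex (by rw [hm]; simp)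
      have h2 := mkCol_mono R U hle hj
      rw [hj, ← hm]
      exact h2.symm
  have hnone : ∀ x, col x = none ↔ ∀ m, c m x = none := by
    intro x
    constructor
    · intro h m
      by_contra hne
      obtain ⟨j, hj⟩ := Option.ne_none_iff_exists'.1 hne
      have := (hsome x j).2 ⟨m, hj⟩
      rw [h] at this
      exact absurd this (by simp)
    · intro h
      by_contra hne
      obtain ⟨j, hj⟩ := Option.ne_none_iff_exists'.1 hne
      obtain ⟨m, hm⟩ := (hsome x j).1 hj
      rw [h m] at hm
      exact absurd hm (by simp)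
  refine ⟨col, ?_, ?_, ?_, ?_⟩
  · intro v
    cases v with
    | none =>
      have h1 : {x | col x = none} = ⋂ m, {x | c m x = none} := by
        ext x
        simp only [mem_ofPred_eq, mem_iInter]
        exact hnone x
      rw [h1]
      exact MeasurableSet.iInter fun m => mkCol_measurable R hUm m _
    | some i =>
      have h1 : {x | col x = some i} = ⋃ m, {x | c m x = some i} := by
        ext x
        simp only [mem_ofPred_eq, mem_iUnion]
        exact hsome x i
      rw [h1]
      exact MeasurableSet.iUnion fun m => mkCol_measurable R hUm m _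
  · intro x i h
    obtain ⟨m, hm⟩ := (hsome x i).1 h
    exact mkCol_le R hU m x i hm
  · intro x
    obtain ⟨m, hm⟩ := hcov x
    by_cases hx : mkNew R (c m) (U m) x
    · refine ⟨0, zero_mem_ball R, ?_⟩
      rw [act_zero, (hsome x _).2 ⟨m + 1, mkCol_new R U hx⟩]
      simp
    · by_cases hcx : c m x = none
      · have h1 : ¬ ∀ g ∈ ball d R, c m (act g x) = none := fun h => hx ⟨hcx, hm, h⟩
        push Not at h1
        obtain ⟨g, hg, hne⟩ := h1
        obtain ⟨j, hj⟩ := Option.ne_none_iff_exists'.1 hne
        refine ⟨g, hg, ?_⟩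
        rw [(hsome (act g x) j).2 ⟨m, hj⟩]
        simp
      · obtain ⟨j, hj⟩ := Option.ne_none_iff_exists'.1 hcx
        refine ⟨0, zero_mem_ball R, ?_⟩
        rw [act_zero, (hsome x j).2 ⟨m, hj⟩]
        simp
  · intro x g hg hne i h1 h2
    obtain ⟨m, hm⟩ := (hsome x i).1 h1
    obtain ⟨n, hn⟩ := (hsome (act g x) i).1 h2
    have h3 := mkCol_mono R U (le_max_left m n) hm
    have h4 := mkCol_mono R U (le_max_right m n) hn
    exact hne (mkCol_proper R hU (max m n) x g i hg h3 h4)

end Pool.Agent.H62.BS
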