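import Pool.Agent.H62.BS.Defs
import Pool.Agent.H62.BS.Markers

/-!
Increasing sequences of finite Borel equivalence relations on the free part, one for every
colour, such that for every point one colour is exhausting (BS-2).
-/

set_option autoImplicit false

open MeasureTheory Topology Filter Set

namespace Pool.Agent.H62.BS

theorem add_mem_ball {d r s : ℕ} {g h : G d} (hg : g ∈ ball d r) (hh : h ∈ ball d s) :
    g + h ∈ ball d (r + s) := by
  rw [mem_ball] at hg hh ⊢
  intro j
  have h1 := hg j
  have h2 := hh j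
  have h3 : |(g + h) j| ≤ |g j| + |h j| := by
    rw [Pi.add_apply]
    exact abs_add_le _ _
  push_cast
  linarith

theorem sub_mem_ball {d r s : ℕ} {g h : G d} (hg : g ∈ ball d r) (hh : h ∈ ball d s) :
    g - h ∈ ball d (r + s) := by
  rw [sub_eq_add_neg]
  refine add_mem_ball hg ?_
  rw [mem_ball] at hh ⊢
  intro j
  rw [Pi.neg_apply, abs_neg]
  exact hh j

open Classical in
/-- The position of the point of colour `i` near `y`, or `0` if there is none. -/
noncomputable def ptr {d : ℕ} (col : FreePart d → Option ℕ) (R i : ℕ) (y : FreePart d) : G d :=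
  if h : ∃ g, g ∈ ball d (3 * R) ∧ col (act g y) = some i then h.choose else 0

theorem ptr_mem {d : ℕ} (col : FreePart d → Option ℕ) (R i : ℕ) (y : FreePart d) :
    ptr col R i y ∈ ball d (3 * R) := by
  unfold ptr
  split_ifs with h
  · exact h.choose_spec.1
  · exact zero_mem_ball _

theorem ptr_eq {d : ℕ} {col : FreePart d → Option ℕ} {R : ℕ}
    (hsep : ∀ x, ∀ g ∈ ball d (6 * R), g ≠ 0 → ∀ i, col x = some i → col (act g x) ≠ some i)
    {i : ℕ} {y : FreePart d} {g : G d} (hg : g ∈ ball d (3 * R)) (hc : col (act g y) = some i) :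
    ptr col R i y = g := by
  have hex : ∃ g, g ∈ ball d (3 * R) ∧ col (act g y) = some i := ⟨g, hg, hc⟩
  have h1 : ptr col R i y ∈ ball d (3 * R) ∧ col (act (ptr col R i y) y) = some i := by
    unfold ptr
    rw [dif_pos hex]
    exact hex.choose_spec
  by_contra hne
  refine hsep (act g y) (ptr col R i y - g) ?_ (sub_ne_zero.2 hne) i hc ?_
  · have := sub_mem_ball h1.1 hg
    refine ball_mono ?_ this
    omega
  · rw [act_act, sub_add_cancel]
    exact h1.2

theorem ptr_eq_iff {d : ℕ} {col : FreePart d → Option ℕ} {R : ℕ}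
    (hsep : ∀ x, ∀ g ∈ ball d (6 * R), g ≠ 0 → ∀ i, col x = some i → col (act g x) ≠ some i)
    (i : ℕ) (y : FreePart d) (k : G d) :
    ptr col R i y = k ↔ (k ∈ ball d (3 * R) ∧ col (act k y) = some i) ∨
      (k = 0 ∧ ∀ g ∈ ball d (3 * R), ¬ col (act g y) = some i) := by
  constructor
  · intro h
    by_cases hex : ∃ g, g ∈ ball d (3 * R) ∧ col (act g y) = some i
    · left
      rw [← h]
      unfold ptr
      rw [dif_pos hex]
      exact hex.choose_spec
    · right
      refine ⟨?_, fun g hg hc => hex ⟨g, hg, hc⟩⟩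
      rw [← h]
      unfold ptr
      rw [dif_neg hex]
  · rintro (⟨h1, h2⟩ | ⟨rfl, h2⟩)
    · exact ptr_eq hsep h1 h2
    · unfold ptr
      rw [dif_neg]
      rintro ⟨g, hg, hc⟩
      exact h2 g hg hc

theorem measurable_ptr {d : ℕ} {col : FreePart d → Option ℕ} {R : ℕ}
    (hm : ∀ v, MeasurableSet {x | col x = v})
    (hsep : ∀ x, ∀ g ∈ ball d (6 * R), g ≠ 0 → ∀ i, col x = some i → col (act g x) ≠ some i)
    (i : ℕ) (k : G d) : MeasurableSet {y | ptr col R i y = k} := by
  have hpre : ∀ g : G d, MeasurableSet {y : FreePart d | col (act g y) = some i} := fun g =>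
    measurable_act g (hm (some i))
  have hset : {y | ptr col R i y = k} =
      ({y | k ∈ ball d (3 * R)} ∩ {y : FreePart d | col (act k y) = some i}) ∪
      ({y | k = 0} ∩ ⋂ g ∈ ball d (3 * R), {y : FreePart d | col (act g y) = some i}ᶜ) := by
    ext y
    have := ptr_eq_iff hsep i y k
    simp only [Set.mem_ofPred_eq, mem_union, mem_inter_iff, mem_iInter, mem_compl_iff]
    exact this
  rw [hset]
  refine MeasurableSet.union (MeasurableSet.inter (MeasurableSet.const _) (hpre k))
    (MeasurableSet.inter (MeasurableSet.const _) ?_)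
  exact Finset.measurableSet_biInter _ fun g _ => (hpre g).compl

/-- The radii. -/
def dl : ℕ → ℕ
  | 0 => 0
  | n + 1 => dl n + 3 * max n (dl n)

/-- The base points. -/
noncomputable def base {d : ℕ} (col : ℕ → FreePart d → Option ℕ) (i : ℕ) :
    ℕ → FreePart d → G d
  | 0, _ => 0
  | n + 1, x => ptr (col n) (max n (dl n)) i (act (base col i n x) x) + base col i n x

theorem base_succ {d : ℕ} (col : ℕ → FreePart d → Option ℕ) (i n : ℕ) (x : FreePart d) :
    base col i (n + 1) x =
      ptr (col n) (max n (dl n)) i (act (base col i n x) x) + base col i n x := rfl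

theorem base_mem {d : ℕ} (col : ℕ → FreePart d → Option ℕ) (i n : ℕ) (x : FreePart d) :
    base col i n x ∈ ball d (dl n) := by
  induction n with
  | zero => exact zero_mem_ball _
  | succ n ih =>
    rw [base_succ]
    have := add_mem_ball (ptr_mem (col n) (max n (dl n)) i (act (base col i n x) x)) ih
    refine ball_mono (le_of_eq ?_) this
    simp only [dl]
    omega

theorem base_increasing {d : ℕ} (col : ℕ → FreePart d → Option ℕ) (i n : ℕ) (x : FreePart d)
    (g : G d) (h : base col i n x = base col i n (act g x) + g) :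
    base col i (n + 1) x = base col i (n + 1) (act g x) + g := by
  rw [base_succ, base_succ, act_act, ← h, h, add_assoc]

theorem measurable_base {d : ℕ} {col : ℕ → FreePart d → Option ℕ}
    (hm : ∀ n v, MeasurableSet {x | col n x = v})
    (hsep : ∀ n x, ∀ g ∈ ball d (6 * max n (dl n)), g ≠ 0 → ∀ i, col n x = some i →
      col n (act g x) ≠ some i)
    (i n : ℕ) (g : G d) : MeasurableSet {x | base col i n x = g} := by
  induction n generalizing g with
  | zero =>
    have hz : {x | base col i 0 x = g} = {_x : FreePart d | (0 : G d) = g} := rfl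
    rw [hz]
    exact MeasurableSet.const _
  | succ n ih =>
    have hset : {x | base col i (n + 1) x = g} =
        ⋃ h : G d, {x | base col i n x = h} ∩
          act h ⁻¹' {y | ptr (col n) (max n (dl n)) i y = g - h} := by
      ext x
      simp only [Set.mem_ofPred_eq, mem_iUnion, mem_inter_iff, mem_preimage]
      constructor
      · intro hx
        refine ⟨base col i n x, rfl, ?_⟩
        rw [← hx, base_succ, add_sub_cancel_right]
      · rintro ⟨h, hx, hy⟩
        rw [base_succ, hx, hy, sub_add_cancel]
    rw [hset]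
    refine MeasurableSet.iUnion fun h => (ih h).inter ?_
    exact measurable_act h (measurable_ptr (hm n) (hsep n) i (g - h))

theorem base_exhaust {d : ℕ} {col : ℕ → FreePart d → Option ℕ} {n : ℕ}
    (hsep : ∀ x, ∀ g ∈ ball d (6 * max n (dl n)), g ≠ 0 → ∀ i, col n x = some i →
      col n (act g x) ≠ some i)
    {x : FreePart d} {g₀ : G d} (hg₀ : g₀ ∈ ball d (max n (dl n))) {i : ℕ}
    (hc : col n (act g₀ x) = some i) {r : ℕ} (hr : r ≤ n) {g : G d} (hg : g ∈ ball d r) :
    base col i (n + 1) (act g x) + g = g₀ := by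
  have hb : base col i n (act g x) + g ∈ ball d (2 * max n (dl n)) := by
    refine ball_mono ?_ (add_mem_ball (base_mem col i n (act g x)) hg)
    have h1 := le_max_left n (dl n)
    have h2 := le_max_right n (dl n)
    omega
  have hp : ptr (col n) (max n (dl n)) i (act (base col i n (act g x)) (act g x)) =
      g₀ - (base col i n (act g x) + g) := by
    refine ptr_eq hsep ?_ ?_
    · refine ball_mono ?_ (sub_mem_ball hg₀ hb)
      omega
    · rw [act_act, act_act, add_assoc, sub_add_cancel]
      exact hc
  rw [base_succ, hp, add_assoc, sub_add_cancel]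

/-- Increasing finite Borel equivalence relations (colour `i`, level `n`), given by base points:
`B i n x` is the position of the base point of the class of `x` relative to `x`. -/
theorem exists_bases (d : ℕ) : ∃ B : ℕ → ℕ → FreePart d → G d,
    (∀ i n g, MeasurableSet {x | B i n x = g}) ∧
    (∀ i n, ∃ δ : ℕ, ∀ x, B i n x ∈ ball d δ) ∧
    (∀ i n x g, B i n x = B i n (act g x) + g → B i (n + 1) x = B i (n + 1) (act g x) + g) ∧
    ∀ x, ∃ i, ∀ r : ℕ, ∃ n, ∀ g ∈ ball d r, B i n x = B i n (act g x) + g := by
  choose col hm hle hex hsep using fun n : ℕ => exists_markers d (max n (dl n))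
  refine ⟨base col, fun i n g => measurable_base hm hsep i n g,
    fun i n => ⟨dl n, base_mem col i n⟩, base_increasing col, fun x => ?_⟩
  -- the colour seen from `x` at level `n`
  have hc : ∀ n, ∃ c : Fin (12 ^ d + 1), ∃ g ∈ ball d (max n (dl n)),
      col n (act g x) = some (c : ℕ) := by
    intro n
    obtain ⟨g, hg, hne⟩ := hex n x
    obtain ⟨c, hc⟩ := Option.ne_none_iff_exists'.1 hne
    exact ⟨⟨c, Nat.lt_succ_of_le (hle n _ c hc)⟩, g, hg, hc⟩
  choose c g₀ hg₀ hc using hc
  obtain ⟨i, hi⟩ := Finite.exists_infinite_fiber c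
  refine ⟨i, fun r => ?_⟩
  have hinf : (c ⁻¹' {i}).Infinite := Set.infinite_coe_iff.1 hi
  obtain ⟨n, hn, hrn⟩ := hinf.exists_gt r
  have hcn : col n (act (g₀ n) x) = some (i : ℕ) := by
    have h1 : c n = i := hn
    rw [← h1]
    exact hc n
  refine ⟨n + 1, fun g hg => ?_⟩
  have h0 := base_exhaust (hsep n) (hg₀ n) hcn hrn.le (zero_mem_ball r)
  rw [act_zero, add_zero] at h0
  rw [base_exhaust (hsep n) (hg₀ n) hcn hrn.le hg, h0]

end Pool.Agent.H62.BS
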