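import Pool.Agent.H62.BS.MixCoin

/-!
MP_6540cb_lc, BS-6: a nontrivial measurable set has positive entropy along a lattice.
-/

set_option autoImplicit false

open MeasureTheory Topology Filter Set

namespace Pool.Agent.H62.BS

/-- size of a Hamming ball -/
private theorem ce_ball {ι : Type} [Fintype ι] [DecidableEq ι] (e : ι → Prop) (t : ℝ)
    (ht0 : 0 < t) (ht1 : t < 1) (r : ℝ) (B : Finset (ι → Prop))
    (hB : ∀ σ ∈ B, ∃ s : Finset ι, (∀ i, i ∈ s ↔ ¬ (σ i ↔ e i)) ∧ (s.card : ℝ) ≤ r) :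
    (B.card : ℝ) * t ^ r ≤ (1 + t) ^ Fintype.card ι := by
  classical
  have h1 : ∀ σ : ι → Prop, ∏ i, (if (σ i ↔ e i) then (1 : ℝ) else t) =
      t ^ (Finset.univ.filter fun i => ¬ (σ i ↔ e i)).card := by
    intro σ
    rw [Finset.prod_ite, Finset.prod_const_one, one_mul, Finset.prod_const]
  have h2 : ∑ σ : ι → Prop, ∏ i, (if (σ i ↔ e i) then (1 : ℝ) else t) =
      (1 + t) ^ Fintype.card ι := by
    have h3 : ∀ i : ι, ∑ b : Prop, (if (b ↔ e i) then (1 : ℝ) else t) = 1 + t := by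
      intro i
      have h4 : (Finset.univ : Finset Prop) = {True, False} := by
        ext b
        by_cases hb : b <;> simp [hb]
      rw [h4, Finset.sum_pair (by simp)]
      by_cases hi : e i <;> simp [hi, add_comm]
    have h5 := Finset.prod_univ_sum (fun _ : ι => (Finset.univ : Finset Prop))
      (fun (i : ι) (b : Prop) => if (b ↔ e i) then (1 : ℝ) else t)
    rw [Fintype.piFinset_univ] at h5
    rw [← h5, Finset.prod_congr rfl (fun i _ => h3 i), Finset.prod_const, Finset.card_univ]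
  rw [← h2, ← nsmul_eq_mul, ← Finset.sum_const]
  refine (Finset.sum_le_sum fun σ hσ => ?_).trans
    (Finset.sum_le_sum_of_subset_of_nonneg (Finset.subset_univ B) fun σ _ _ => ?_)
  · obtain ⟨s, hs, hsr⟩ := hB σ hσ
    rw [h1 σ]
    have h3 : (Finset.univ.filter fun i => ¬ (σ i ↔ e i)) = s := by
      ext i
      simp [hs i]
    rw [h3, ← Real.rpow_natCast]
    exact Real.rpow_le_rpow_of_exponent_ge ht0 ht1.le hsr
  · exact Finset.prod_nonneg fun i _ => by split_ifs <;> linarith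

private theorem ce_measurable {d : ℕ} (Λ : Finset (G d)) (C : Set (Conf d Bool))
    (hC : ∀ x y : Conf d Bool, (∀ h ∈ Λ, x h = y h) → (x ∈ C ↔ y ∈ C)) : MeasurableSet C := by
  let ρ : Conf d Bool → (Λ → Bool) := fun x h => x h
  have hρ : Measurable ρ := measurable_pi_iff.2 fun h => measurable_pi_apply _
  have h1 : C = ρ ⁻¹' (ρ '' C) := by
    ext x
    constructor
    · intro hx
      exact ⟨x, hx, rfl⟩
    · rintro ⟨y, hy, hyx⟩
      exact (hC y x fun h hh => congrFun hyx ⟨h, hh⟩).1 hy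
  rw [h1]
  exact hρ (Set.toFinite _).measurableSet

private theorem ce_card (d n : ℕ) : (ball d n).card = (2 * n + 1) ^ d := by
  rw [ball, Pi.card_Icc]
  simp only [Int.card_Icc, Finset.prod_const, Finset.card_univ, Fintype.card_fin]
  congr 1
  omega

/-- the numerical choice of parameters -/
private theorem ce_choice (m : ℝ) (h0 : 0 < m) (hm : m < 1) : ∃ θ t ε : ℝ, 0 < t ∧ t < 1 ∧
    0 < θ ∧ 0 < ε ∧ m + ε ≤ θ ∧ 0 < 2 * ε * Real.log t - Real.log ((1 + t) * θ) := by
  obtain ⟨θ, hθ⟩ : ∃ θ, θ = (1 + m) / 2 := ⟨_, rfl⟩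
  obtain ⟨t, ht⟩ : ∃ t, t = (1 - θ) / 2 := ⟨_, rfl⟩
  have hθ1 : θ < 1 := by linarith
  have hθ0 : 0 < θ := by linarith
  have ht0 : 0 < t := by linarith
  have ht1 : t < 1 := by linarith
  have h1 : (1 + t) * θ < 1 := by nlinarith
  have h2 : Real.log ((1 + t) * θ) < 0 := Real.log_neg (by positivity) h1
  have h3 : Real.log t < 0 := Real.log_neg ht0 ht1
  obtain ⟨a, ha⟩ : ∃ a, a = - Real.log ((1 + t) * θ) := ⟨_, rfl⟩
  obtain ⟨b, hb⟩ : ∃ b, b = - Real.log t := ⟨_, rfl⟩
  have ha0 : 0 < a := by linarith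
  have hb0 : 0 < b := by linarith
  refine ⟨θ, t, min ((1 - m) / 2) (a / (4 * b)), ht0, ht1, hθ0, ?_, ?_, ?_⟩
  · exact lt_min (by linarith) (by positivity)
  · have := min_le_left ((1 - m) / 2) (a / (4 * b))
    linarith
  · have h4 := min_le_right ((1 - m) / 2) (a / (4 * b))
    have h5 : 2 * min ((1 - m) / 2) (a / (4 * b)) * b ≤ a / 2 := by
      calc 2 * min ((1 - m) / 2) (a / (4 * b)) * b ≤ 2 * (a / (4 * b)) * b := by gcongr
        _ = a / 2 := by field_simp; ring
    have h6 : Real.log t = - b := by linarith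
    rw [h6]
    linarith

/-- a nontrivial measurable set has positive entropy along a lattice `L • ℤ^d` -/
theorem patterns_coin (d : ℕ) (E : Set (FreePart d)) (hE : NullMeasurableSet E (coin d))
    (h1 : ∃ᶠ x in ae (coin d), x ∈ E) (h0 : ∃ᶠ x in ae (coin d), x ∉ E) :
    ∃ (L : ℕ) (c : ℝ), 0 < L ∧ 0 < c ∧ ∀ n : ℕ,
      Real.exp (c * ((2 * n + 1 : ℕ) : ℝ) ^ d) ≤
        2 * (Set.ncard {w : ball d n → Prop | ∃ x, ∀ g : ball d n,
          w g ↔ act (L • (g : G d)) x ∈ E} : ℝ) := by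
  classical
  have hμ := isProbabilityMeasure_coin d
  have hp0 : 0 < (coin d).real E := by
    rw [frequently_ae_mem_iff] at h1
    exact ENNReal.toReal_pos h1 (measure_ne_top _ _)
  have hp1 : 0 < (coin d).real Eᶜ := by
    have h : ∃ᶠ x in ae (coin d), x ∈ Eᶜ := h0
    rw [frequently_ae_mem_iff] at h
    exact ENNReal.toReal_pos h (measure_ne_top _ _)
  have hcompl : (coin d).real Eᶜ = 1 - (coin d).real E := by
    have := measureReal_add_measureReal_compl₀ hE
    rw [probReal_univ] at this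
    linarith
  obtain ⟨m, hm⟩ : ∃ m, m = max ((coin d).real E) (1 - (coin d).real E) := ⟨_, rfl⟩
  have hm0 : 0 < m := by rw [hm]; exact lt_max_of_lt_left hp0
  have hm1 : m < 1 := by rw [hm]; exact max_lt (by linarith) (by linarith)
  obtain ⟨θ, t, ε, ht0, ht1, hθ0, hε, hθ, hc⟩ := ce_choice m hm0 hm1
  obtain ⟨Λ, C, hC, hCE⟩ := coin_approx hE hε
  obtain ⟨q₀, hq⟩ := coin_indep Λ
  have hCm : MeasurableSet C := ce_measurable Λ C hC
  have hC' : MeasurableSet (Subtype.val ⁻¹' C : Set (FreePart d)) := measurable_subtype_coe hCm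
  -- the two probabilities are at most θ
  have hC1 : (coin d).real (Subtype.val ⁻¹' C) ≤ θ := by
    have h : (Subtype.val ⁻¹' C : Set (FreePart d)) ⊆
        E ∪ symmDiff E (Subtype.val ⁻¹' C) := by
      intro x hx
      by_cases hxE : x ∈ E
      · exact Or.inl hxE
      · exact Or.inr (Or.inr ⟨hx, hxE⟩)
    have h2 := (measureReal_mono (μ := coin d) h (measure_ne_top _ _)).trans (measureReal_union_le _ _)
    have h3 := le_max_left ((coin d).real E) (1 - (coin d).real E)
    linarith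
  have hC2 : (coin d).real (Subtype.val ⁻¹' Cᶜ) ≤ θ := by
    have h : (Subtype.val ⁻¹' Cᶜ : Set (FreePart d)) ⊆
        Eᶜ ∪ symmDiff E (Subtype.val ⁻¹' C) := by
      intro x hx
      by_cases hxE : x ∈ E
      · exact Or.inr (Or.inl ⟨hxE, hx⟩)
      · exact Or.inl hxE
    have h2 := (measureReal_mono (μ := coin d) h (measure_ne_top _ _)).trans (measureReal_union_le _ _)
    have h3 := le_max_right ((coin d).real E) (1 - (coin d).real E)
    linarith
  refine ⟨max q₀ 1, 2 * ε * Real.log t - Real.log ((1 + t) * θ), by simp, hc, fun n => ?_⟩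
  obtain ⟨L, hL⟩ : ∃ L, L = max q₀ 1 := ⟨_, rfl⟩
  rw [← hL]
  have hLq : L ≥ q₀ := by rw [hL]; exact le_max_left _ _
  obtain ⟨N, hN⟩ : ∃ N, N = (ball d n).card := ⟨_, rfl⟩
  have hNd : (N : ℝ) = ((2 * n + 1 : ℕ) : ℝ) ^ d := by
    rw [hN, ce_card]
    push_cast
    ring
  have hN0 : (0 : ℝ) < N := by rw [hNd]; positivity
  have hcardN : Fintype.card (ball d n) = N := by rw [hN, Fintype.card_coe]
  -- the error sets
  let D : G d → Set (FreePart d) := fun g =>
    act (L • g) ⁻¹' (symmDiff E (Subtype.val ⁻¹' C))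
  have hΔ : NullMeasurableSet (symmDiff E (Subtype.val ⁻¹' C)) (coin d) :=
    hE.symmDiff hC'.nullMeasurableSet
  have hD : ∀ g, NullMeasurableSet (D g) (coin d) := fun g =>
    hΔ.preimage (measurePreserving_act (L • g)).quasiMeasurePreserving
  have hDμ : ∀ g, (coin d).real (D g) < ε := fun g => by
    have h : (coin d) (D g) = (coin d) (symmDiff E (Subtype.val ⁻¹' C)) :=
      (measurePreserving_act (L • g)).measure_preimage hΔ
    rw [measureReal_def, h]
    exact hCE
  have hDmem : ∀ (g : G d) (x : FreePart d), x ∈ D g ↔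
      ¬ ((act (L • g) x).1 ∈ C ↔ act (L • g) x ∈ E) := by
    intro g x
    change act (L • g) x ∈ symmDiff E (Subtype.val ⁻¹' C) ↔ _
    rw [Set.mem_symmDiff, Set.mem_preimage]
    tauto
  let f : FreePart d → ℝ := fun x => ∑ g ∈ ball d n, (D g).indicator (fun _ => (1 : ℝ)) x
  have hfi : ∀ g, Integrable ((D g).indicator fun _ => (1 : ℝ)) (coin d) := fun g =>
    (integrable_const (1 : ℝ)).indicator₀ (hD g)
  have hf : Integrable f (coin d) := integrable_finsetSum _ fun g _ => hfi g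
  have hfint : ∫ x, f x ∂(coin d) ≤ N * ε := by
    have : ∫ x, f x ∂(coin d) = ∑ g ∈ ball d n, (coin d).real (D g) := by
      rw [integral_finsetSum _ fun g _ => hfi g]
      refine Finset.sum_congr rfl fun g _ => ?_
      rw [integral_indicator₀ (hD g)]
      simp
    rw [this, hN, ← nsmul_eq_mul]
    exact Finset.sum_le_card_nsmul _ _ _ fun g _ => (hDμ g).le
  have hmarkov := mul_meas_ge_le_integral_of_nonneg
    (Filter.Eventually.of_forall fun x => Finset.sum_nonneg fun g _ =>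
      Set.indicator_nonneg (fun _ _ => zero_le_one) x : 0 ≤ᵐ[coin d] f) hf (2 * ε * N)
  have hbad : (coin d).real {x | 2 * ε * N ≤ f x} ≤ 1 / 2 := by
    have h2 : 2 * ε * N * (coin d).real {x | 2 * ε * N ≤ f x} ≤ N * ε := hmarkov.trans hfint
    have h3 : 0 < ε * N := by positivity
    by_contra hlt
    push Not at hlt
    nlinarith
  have hgood : 1 / 2 ≤ (coin d).real {x | ¬ 2 * ε * N ≤ f x} := by
    have h2 : (Set.univ : Set (FreePart d)) ⊆
        {x | 2 * ε * N ≤ f x} ∪ {x | ¬ 2 * ε * N ≤ f x} := fun x _ => em _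
    have h3 := (measureReal_mono h2 (measure_ne_top (coin d) _)).trans (measureReal_union_le _ _)
    rw [probReal_univ] at h3
    linarith
  -- number of errors
  have hcount : ∀ x, f x = (((ball d n).attach.filter fun g : ball d n =>
      ¬ ((act (L • (g : G d)) x).1 ∈ C ↔ act (L • (g : G d)) x ∈ E)).card : ℝ) := by
    intro x
    change ∑ g ∈ ball d n, (D g).indicator (fun _ => (1 : ℝ)) x = _
    rw [← Finset.sum_attach, Finset.card_filter]
    push_cast
    refine Finset.sum_congr rfl fun g _ => ?_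
    by_cases hg : x ∈ D g
    · rw [Set.indicator_of_mem hg, if_pos ((hDmem g x).1 hg)]
    · rw [Set.indicator_of_notMem hg, if_neg (fun h => hg ((hDmem g x).2 h))]
  -- the set of words
  obtain ⟨W, hW⟩ : ∃ W : Set (ball d n → Prop), W = {w : ball d n → Prop | ∃ x, ∀ g : ball d n,
          w g ↔ act (L • (g : G d)) x ∈ E} := ⟨_, rfl⟩
  rw [← hW]
  have hWf : W.Finite := Set.toFinite _
  let Bl : (ball d n → Prop) → Finset (ball d n → Prop) := fun w =>
    Finset.univ.filter fun σ => (((ball d n).attach.filter fun g : ball d n =>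
      ¬ (σ g ↔ w g)).card : ℝ) ≤ 2 * ε * N
  let A : (ball d n → Prop) → Set (FreePart d) := fun σ =>
    {x | ∀ g : ball d n, (act (L • (g : G d)) x).1 ∈ C ↔ σ g}
  have hA : ∀ σ, (coin d).real (A σ) ≤ θ ^ N := by
    intro σ
    let Cs : G d → Set (Conf d Bool) := fun g =>
      if h : g ∈ ball d n then (if σ ⟨g, h⟩ then C else Cᶜ) else Set.univ
    have hCs : ∀ g, ∀ x y : Conf d Bool, (∀ h ∈ Λ, x h = y h) → (x ∈ Cs g ↔ y ∈ Cs g) := by
      intro g x y hxy
      have := hC x y hxy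
      simp only [Cs]
      split_ifs
      · exact this
      · rw [Set.mem_compl_iff, Set.mem_compl_iff, this]
      · simp
    have h2 := hq L hLq (ball d n) Cs hCs
    have h3 : A σ = {x | ∀ g ∈ ball d n, (act (L • g) x).1 ∈ Cs g} := by
      ext x
      constructor
      · intro hx g hg
        have h4 := hx ⟨g, hg⟩
        simp only [Cs, dif_pos hg]
        split_ifs with h5
        · exact h4.2 h5
        · exact fun h6 => h5 (h4.1 h6)
      · intro hx g
        have h4 := hx g g.2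
        simp only [Cs, dif_pos g.2] at h4
        split_ifs at h4 with h5
        · exact ⟨fun _ => h5, fun _ => h4⟩
        · exact ⟨fun h6 => absurd h6 h4, fun h6 => absurd h6 h5⟩
    rw [h3, h2, hN, ← Finset.prod_const]
    refine Finset.prod_le_prod (fun g _ => measureReal_nonneg) fun g hg => ?_
    simp only [Cs, dif_pos hg]
    split_ifs
    · exact hC1
    · exact hC2
  have hcover : {x | ¬ 2 * ε * N ≤ f x} ⊆ ⋃ w ∈ hWf.toFinset, ⋃ σ ∈ Bl w, A σ := by
    intro x hx
    simp only [Set.mem_iUnion]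
    refine ⟨fun g => act (L • (g : G d)) x ∈ E, ?_, fun g => (act (L • (g : G d)) x).1 ∈ C,
      ?_, fun g => Iff.rfl⟩
    · rw [Set.Finite.mem_toFinset, hW]
      exact ⟨x, fun g => Iff.rfl⟩
    · rw [Finset.mem_filter]
      refine ⟨Finset.mem_univ _, ?_⟩
      rw [← hcount x]
      exact (not_le.1 hx).le
  have hsum : (coin d).real {x | ¬ 2 * ε * N ≤ f x} ≤
      ∑ w ∈ hWf.toFinset, ∑ σ ∈ Bl w, θ ^ N := by
    refine (measureReal_mono hcover (measure_ne_top _ _)).trans ?_
    refine (measureReal_biUnion_finset_le _ _).trans (Finset.sum_le_sum fun w _ => ?_)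
    exact (measureReal_biUnion_finset_le _ _).trans (Finset.sum_le_sum fun σ _ => hA σ)
  have hball : ∀ w, ((Bl w).card : ℝ) * t ^ (2 * ε * N) ≤ (1 + t) ^ N := by
    intro w
    have h := ce_ball w t ht0 ht1 (2 * ε * N) (Bl w) (by
      intro σ hσ
      rw [Finset.mem_filter] at hσ
      exact ⟨_, fun i => by simp, hσ.2⟩)
    rwa [hcardN] at h
  have htr : 0 < t ^ (2 * ε * N) := Real.rpow_pos_of_pos ht0 _
  have hfinal : 1 / 2 * t ^ (2 * ε * N) ≤ (W.ncard : ℝ) * ((1 + t) * θ) ^ N := by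
    have h2 : 1 / 2 ≤ ∑ w ∈ hWf.toFinset, ∑ σ ∈ Bl w, θ ^ N := hgood.trans hsum
    have h3 : (∑ w ∈ hWf.toFinset, ∑ σ ∈ Bl w, θ ^ N) * t ^ (2 * ε * N) ≤
        (W.ncard : ℝ) * ((1 + t) * θ) ^ N := by
      rw [Finset.sum_mul, Set.ncard_eq_toFinset_card W hWf, ← nsmul_eq_mul]
      refine Finset.sum_le_card_nsmul _ _ _ fun w _ => ?_
      rw [Finset.sum_const, nsmul_eq_mul, mul_pow]
      calc ((Bl w).card : ℝ) * θ ^ N * t ^ (2 * ε * N)
          = ((Bl w).card : ℝ) * t ^ (2 * ε * N) * θ ^ N := by ring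
        _ ≤ (1 + t) ^ N * θ ^ N := by gcongr; exact hball w
    exact (mul_le_mul_of_nonneg_right h2 htr.le).trans h3
  -- conclusion
  have hx0 : 0 < (1 + t) * θ := by positivity
  have he : Real.exp ((2 * ε * Real.log t - Real.log ((1 + t) * θ)) *
      ((2 * n + 1 : ℕ) : ℝ) ^ d) * ((1 + t) * θ) ^ N = t ^ (2 * ε * N) := by
    rw [← hNd, Real.rpow_def_of_pos ht0, ← Real.rpow_natCast ((1 + t) * θ) N,
      Real.rpow_def_of_pos hx0, ← Real.exp_add]
    congr 1
    ring
  rw [← he] at hfinal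
  have hpw : 0 < ((1 + t) * θ) ^ N := by positivity
  have h7 : 1 / 2 * Real.exp ((2 * ε * Real.log t - Real.log ((1 + t) * θ)) *
      ((2 * n + 1 : ℕ) : ℝ) ^ d) ≤ (W.ncard : ℝ) := by
    refine le_of_mul_le_mul_right ?_ hpw
    rw [mul_assoc]
    exact hfinal
  linarith

end Pool.Agent.H62.BS
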