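import Pool.Agent.H62.BS.Defs

set_option autoImplicit false

/-!
BS-4 (project BS of helper62, MP_6540cb_lc): the free part is a Baire space, finitely many
cylinders can be realized at far away places, and Baire measurable maps are mixing of all orders
for the filter of comeagre sets.
-/

open MeasureTheory Topology Filter Set

namespace Pool.Agent.H62.BS

theorem mb_continuous_sh {d : ℕ} (g : G d) :
    Continuous (sh g : Conf d Bool → Conf d Bool) :=
  continuous_pi fun h => continuous_apply (h + g)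

instance baireSpace_freePart (d : ℕ) : BaireSpace (FreePart d) := by
  have h1 : FreePart d = ⋂ (g : G d) (_ : g ≠ 0), {x : Conf d Bool | sh g x ≠ x} := by
    ext x
    simp [FreePart]
  have hG : IsGδ (FreePart d) := by
    rw [h1]
    refine IsGδ.iInter (fun g => IsGδ.iInter (fun _ => IsOpen.isGδ ?_))
    exact isOpen_ne_fun (mb_continuous_sh g) continuous_id
  exact hG.baireSpace_of_t2Space_locallyCompactSpace

theorem mb_isOpen_cyl {d : ℕ} (Λ : Finset (G d)) (g : G d) (y : Conf d Bool) :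
    IsOpen {x : FreePart d | ∀ h ∈ Λ, (act g x).1 h = y h} := by
  have h1 : {x : FreePart d | ∀ h ∈ Λ, (act g x).1 h = y h} =
      ⋂ h ∈ Λ, {x : FreePart d | x.1 (h + g) = y h} := by
    ext x
    simp [act_val]
  rw [h1]
  refine isOpen_biInter_finset (fun h _ => ?_)
  have hc : Continuous (fun x : FreePart d => x.1 (h + g)) :=
    (continuous_apply (h + g)).comp continuous_subtype_val
  exact (isOpen_discrete ({y h} : Set Bool)).preimage hc

/-- A configuration with a finite and nonempty set of ones is free. -/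
theorem mb_free_of_finite {d : ℕ} {x : Conf d Bool} (hfin : {k | x k = true}.Finite)
    {k₀ : G d} (h0 : x k₀ = true) : x ∈ FreePart d := by
  intro g hg he
  have h1 : ∀ h, x (h + g) = x h := fun h => congrFun he h
  have h2 : ∀ n : ℕ, x (k₀ + n • g) = true := by
    intro n
    induction n with
    | zero => simpa using h0
    | succ n ih => rw [succ_nsmul, ← add_assoc, h1, ih]
  have hinj : Function.Injective (fun n : ℕ => k₀ + n • g) := by
    intro m n hmn
    obtain ⟨j, hj⟩ := Function.ne_iff.mp hg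
    have h3 := congrFun hmn j
    simp only [Pi.add_apply, Pi.smul_apply, add_right_inj] at h3
    simp only [nsmul_eq_mul] at h3
    have h4 : (m : ℤ) = n := mul_right_cancel₀ hj h3
    exact_mod_cast h4
  exact Set.infinite_of_injective_forall_mem hinj h2 hfin

/-- realizing finitely many cylinders at far away places by a point of the free part -/
theorem exists_cylinders (d : ℕ) (Λ : Finset (G d)) :
    ∃ q₀ : ℕ, ∀ q ≥ q₀, ∀ (s : Finset (G d)) (σ : G d → Conf d Bool), ∃ x : FreePart d,
      ∀ g ∈ s, ∀ h ∈ Λ, (act (q • g) x).1 h = σ g h := by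
  classical
  obtain ⟨r, hr⟩ : ∃ r : ℕ, ∀ h ∈ Λ, ∀ j, |h j| ≤ (r : ℤ) := by
    refine ⟨∑ h ∈ Λ, ∑ j, (h j).natAbs, fun h hh j => ?_⟩
    rw [Int.abs_eq_natAbs]
    have h1 : (h j).natAbs ≤ ∑ j, (h j).natAbs :=
      Finset.single_le_sum (f := fun j => (h j).natAbs) (fun _ _ => Nat.zero_le _)
        (Finset.mem_univ j)
    have h2 : ∑ j, (h j).natAbs ≤ ∑ h ∈ Λ, ∑ j, (h j).natAbs :=
      Finset.single_le_sum (f := fun h : G d => ∑ j, (h j).natAbs) (fun _ _ => Nat.zero_le _) hh
    exact_mod_cast h1.trans h2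
  refine ⟨2 * r + 1, fun q hq s σ => ?_⟩
  have hsep : ∀ g g' : G d, ∀ h ∈ Λ, ∀ h' ∈ Λ, h + q • g = h' + q • g' → g = g' ∧ h = h' := by
    intro g g' h hh h' hh' he
    have hg : g = g' := by
      funext j
      by_contra hne
      have h1 := congrFun he j
      simp only [Pi.add_apply, Pi.smul_apply] at h1
      simp only [nsmul_eq_mul] at h1
      have h2 := abs_le.mp (hr h hh j)
      have h3 := abs_le.mp (hr h' hh' j)
      have h4 : (q : ℤ) * (g j - g' j) = h' j - h j := by linarith
      have h5 : 1 ≤ |g j - g' j| := Int.one_le_abs (sub_ne_zero.mpr hne)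
      have h6 : (q : ℤ) ≤ |(q : ℤ) * (g j - g' j)| := by
        rw [abs_mul, Nat.abs_cast]
        nlinarith [Int.natCast_nonneg q]
      have h7 : |h' j - h j| ≤ 2 * r := abs_le.mpr ⟨by linarith, by linarith⟩
      rw [h4] at h6
      have h8 : (2 * r + 1 : ℤ) ≤ q := by exact_mod_cast hq
      linarith
    subst hg
    exact ⟨rfl, by simpa using he⟩
  -- the pattern
  set P : Conf d Bool := fun k => decide (∃ g ∈ s, ∃ h ∈ Λ, k = h + q • g ∧ σ g h = true)
    with hPdef
  have hP : ∀ g ∈ s, ∀ h ∈ Λ, P (h + q • g) = σ g h := by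
    intro g hg h hh
    rw [hPdef, Bool.eq_iff_iff]
    simp only [decide_eq_true_eq]
    constructor
    · rintro ⟨g', hg', h', hh', he, hσ⟩
      obtain ⟨rfl, rfl⟩ := hsep g g' h hh h' hh' he
      exact hσ
    · intro hσ
      exact ⟨g, hg, h, hh, rfl, hσ⟩
  set Win : Finset (G d) := (s ×ˢ Λ).image (fun p => p.2 + q • p.1) with hWin
  have hPW : ∀ k, P k = true → k ∈ Win := by
    intro k hk
    rw [hPdef] at hk
    simp only [decide_eq_true_eq] at hk
    obtain ⟨g, hg, h, hh, rfl, _⟩ := hk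
    exact Finset.mem_image.mpr ⟨(g, h), Finset.mem_product.mpr ⟨hg, hh⟩, rfl⟩
  rcases Nat.eq_zero_or_pos d with hd | hd
  · subst hd
    refine ⟨⟨P, fun g hg => absurd (Subsingleton.elim g 0) hg⟩, fun g hg h hh => ?_⟩
    rw [act_val]
    exact hP g hg h hh
  · have : Nonempty (Fin d) := ⟨⟨0, hd⟩⟩
    have : Infinite (G d) := Pi.infinite_of_right
    obtain ⟨k₀, hk₀⟩ := Infinite.exists_notMem_finset Win
    set x : Conf d Bool := Function.update P k₀ true with hx
    have hx0 : x k₀ = true := by rw [hx, Function.update_self]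
    have hfin : {k | x k = true}.Finite := by
      refine (Finset.finite_toSet (insert k₀ Win)).subset (fun k hk => ?_)
      rw [Finset.mem_coe, Finset.mem_insert]
      by_cases hkk : k = k₀
      · exact Or.inl hkk
      · right
        refine hPW k ?_
        have h1 : x k = true := hk
        rwa [hx, Function.update_of_ne hkk] at h1
    refine ⟨⟨x, mb_free_of_finite hfin hx0⟩, fun g hg h hh => ?_⟩
    rw [act_val]
    have hne : h + q • g ≠ k₀ := by
      rintro rfl
      exact hk₀ (Finset.mem_image.mpr ⟨(g, h), Finset.mem_product.mpr ⟨hg, hh⟩, rfl⟩)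
    have h1 : x (h + q • g) = P (h + q • g) := by rw [hx, Function.update_of_ne hne]
    exact h1.trans (hP g hg h hh)

instance nonempty_freePart (d : ℕ) : Nonempty (FreePart d) := by
  obtain ⟨q₀, hq₀⟩ := exists_cylinders d ∅
  obtain ⟨x, _⟩ := hq₀ q₀ le_rfl ∅ (fun _ _ => true)
  exact ⟨x⟩

/-- residual sets of the free part may be assumed to be invariant -/
theorem residual_all_act {d : ℕ} {p : FreePart d → Prop} (h : ∀ᶠ x in residual (FreePart d), p x) :
    ∀ᶠ x in residual (FreePart d), ∀ g, p (act g x) := by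
  rw [eventually_countable_forall]
  intro g
  exact (tendsto_residual_of_isOpenMap (continuous_act g) (actHomeo g).isOpenMap).eventually h

theorem mix_residual (d : ℕ) {V : Type} (F : FreePart d → V)
    (hF : ∀ v, BaireMeasurableSet {x | F x = v}) (t : Finset V)
    (ht : ∀ v ∈ t, ∃ᶠ x in residual (FreePart d), F x = v) :
    ∃ q₀ : ℕ, ∀ q ≥ q₀, ∀ (s : Finset (G d)) (v : G d → V), (∀ g ∈ s, v g ∈ t) →
      ∃ x : FreePart d, ∀ g ∈ s, F (act (q • g) x) = v g := by
  classical
  have h1 : ∀ v ∈ t, ∃ (y : Conf d Bool) (Λ : Finset (G d)), ∀ᶠ x in residual (FreePart d),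
      (∀ h ∈ Λ, x.1 h = y h) → F x = v := by
    intro v hv
    obtain ⟨u, hu, hEu⟩ := (hF v).residualEq_isOpen
    have hne : u.Nonempty := by
      by_contra hne
      rw [Set.not_nonempty_iff_eq_empty] at hne
      subst hne
      refine ht v hv ?_
      filter_upwards [hEu.mem_iff] with x hx hFx
      exact hx.mp hFx
    obtain ⟨y, hy⟩ := hne
    obtain ⟨O, hO, rfl⟩ := isOpen_induced_iff.mp hu
    obtain ⟨I, U, hU, hIU⟩ := isOpen_pi_iff.mp hO y.1 hy
    refine ⟨y.1, I, ?_⟩
    filter_upwards [hEu.mem_iff] with x hx hxy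
    refine hx.mpr (hIU (fun a ha => ?_))
    rw [hxy a ha]
    exact (hU a ha).2
  choose! y Λ hyΛ using h1
  obtain ⟨q₀, hq₀⟩ := exists_cylinders d (t.biUnion Λ)
  refine ⟨q₀, fun q hq s v hv => ?_⟩
  obtain ⟨x₀, hx₀⟩ := hq₀ q hq s (fun g => y (v g))
  have hO : IsOpen {x : FreePart d | ∀ g ∈ s, ∀ h ∈ t.biUnion Λ,
      (act (q • g) x).1 h = y (v g) h} := by
    have h2 : {x : FreePart d | ∀ g ∈ s, ∀ h ∈ t.biUnion Λ, (act (q • g) x).1 h = y (v g) h} =
        ⋂ g ∈ s, {x : FreePart d | ∀ h ∈ t.biUnion Λ, (act (q • g) x).1 h = y (v g) h} := by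
      ext x
      simp only [mem_ofPred_eq, mem_iInter]
    rw [h2]
    exact isOpen_biInter_finset (fun g _ => mb_isOpen_cyl _ _ _)
  have hres : ∀ᶠ x in residual (FreePart d), ∀ g, ∀ w ∈ t,
      (∀ h ∈ Λ w, (act g x).1 h = y w h) → F (act g x) = w :=
    residual_all_act (p := fun x => ∀ w ∈ t, (∀ h ∈ Λ w, x.1 h = y w h) → F x = w)
      ((Filter.eventually_all_finset t).mpr hyΛ)
  have hd := dense_of_mem_residual hres
  obtain ⟨x, hxO, hx⟩ := hd.inter_open_nonempty _ hO ⟨x₀, hx₀⟩
  exact ⟨x, fun g hg => hx (q • g) (v g) (hv g hg) (fun h hh =>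
    hxO g hg h (Finset.mem_biUnion.mpr ⟨v g, hv g hg, hh⟩))⟩

end Pool.Agent.H62.BS
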