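import Pool.Agent.H62.BS.Glue
import Pool.Agent.H62.BS.MixBaire

/-!
Functions on the free part with subexponentially many patterns are generically constant
(helper62).
-/

set_option autoImplicit false

open MeasureTheory Topology Filter Set

namespace Pool.Agent.H62.BS

theorem card_ball (d n : ℕ) : (ball d n).card = (2 * n + 1) ^ d := by
  rw [ball, Pi.card_Icc]
  simp only [Int.card_Icc, Finset.prod_const, Finset.card_univ, Fintype.card_fin]
  congr 1
  omega

/-- the set of patterns of `F` on the ball of radius `n` -/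
def patterns {d : ℕ} {V : Type} (F : FreePart d → V) (n : ℕ) : Set (ball d n → V) :=
  Set.range fun x (g : ball d n) => F (act (g : G d) x)

/-- positive entropy along a lattice -/
def PosPatterns (d : ℕ) (E : Set (FreePart d)) : Prop :=
  ∃ (L : ℕ) (c : ℝ), 0 < L ∧ 0 < c ∧ ∀ n : ℕ,
    Real.exp (c * ((2 * n + 1 : ℕ) : ℝ) ^ d) ≤
      2 * (Set.ncard {w : ball d n → Prop | ∃ x, ∀ g : ball d n,
        w g ↔ act (L • (g : G d)) x ∈ E} : ℝ)

theorem smul_mem_ball {d L n m : ℕ} (h : L * n ≤ m) {g : G d} (hg : g ∈ ball d n) :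
    L • g ∈ ball d m := by
  rw [mem_ball] at *
  intro j
  have h1 := hg j
  rw [Pi.smul_apply, nsmul_eq_mul, abs_mul, Nat.abs_cast]
  calc (L : ℤ) * |g j| ≤ (L : ℤ) * n := mul_le_mul_of_nonneg_left h1 (by positivity)
    _ ≤ m := by exact_mod_cast h

theorem not_posPatterns {d : ℕ} {V : Type} [Finite V] (F : FreePart d → V)
    (hent : ∀ ε : ℝ, 0 < ε → ∃ᶠ n : ℕ in atTop,
      ((patterns F n).ncard : ℝ) ≤ Real.exp (ε * ((2 * n + 1 : ℕ) : ℝ) ^ d)) (hd : d ≠ 0)
    (v : V) : ¬ PosPatterns d {x | F x = v} := by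
  classical
  rintro ⟨L, c, hL, hc, h⟩
  have hLd : (0 : ℝ) < (2 * L : ℝ) ^ d := by positivity
  have hε : 0 < c / (2 * (2 * L : ℝ) ^ d) := by positivity
  obtain ⟨M, hM⟩ := exists_nat_gt (2 / c * Real.log 2)
  obtain ⟨m, hm1, hm2⟩ := (hent _ hε).and_eventually (eventually_ge_atTop (L * M)) |>.exists
  set n := m / L with hn
  have hnM : M ≤ n := (Nat.le_div_iff_mul_le hL).2 (by rw [mul_comm]; exact hm2)
  have hLn : L * n ≤ m := Nat.mul_div_le m L
  have hmn : 2 * m + 1 ≤ 2 * L * (2 * n + 1) := by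
    have h1 : m < L * (n + 1) := by
      have := Nat.lt_mul_div_succ m hL
      simpa [hn] using this
    nlinarith [Nat.zero_le (L * n)]
  have h1 : {w : ball d n → Prop | ∃ x, ∀ g : ball d n,
      w g ↔ act (L • (g : G d)) x ∈ {x | F x = v}}.ncard ≤ (patterns F m).ncard := by
    let φ : (ball d m → V) → (ball d n → Prop) := fun w g =>
      w ⟨L • (g : G d), smul_mem_ball hLn g.2⟩ = v
    have h2 : {w : ball d n → Prop | ∃ x, ∀ g : ball d n,
        w g ↔ act (L • (g : G d)) x ∈ {x | F x = v}} ⊆ φ '' (patterns F m) := by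
      rintro w ⟨x, hx⟩
      refine ⟨_, ⟨x, rfl⟩, ?_⟩
      funext g
      exact propext (hx g).symm
    calc _ ≤ (φ '' (patterns F m)).ncard := Set.ncard_le_ncard h2 (Set.toFinite _)
      _ ≤ _ := Set.ncard_image_le (Set.toFinite _)
  have h3 := h n
  have h4 : Real.exp (c * ((2 * n + 1 : ℕ) : ℝ) ^ d) ≤
      2 * Real.exp (c / (2 * (2 * L : ℝ) ^ d) * ((2 * m + 1 : ℕ) : ℝ) ^ d) := by
    refine h3.trans (mul_le_mul_of_nonneg_left ?_ (by norm_num))
    exact (by exact_mod_cast h1 : _ ≤ ((patterns F m).ncard : ℝ)).trans hm1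
  have h5 : c / (2 * (2 * L : ℝ) ^ d) * ((2 * m + 1 : ℕ) : ℝ) ^ d ≤
      c / 2 * ((2 * n + 1 : ℕ) : ℝ) ^ d := by
    have h6 : ((2 * m + 1 : ℕ) : ℝ) ^ d ≤ (2 * L : ℝ) ^ d * ((2 * n + 1 : ℕ) : ℝ) ^ d := by
      rw [← mul_pow]
      refine pow_le_pow_left₀ (by positivity) ?_ d
      exact_mod_cast hmn
    calc c / (2 * (2 * L : ℝ) ^ d) * ((2 * m + 1 : ℕ) : ℝ) ^ d
        ≤ c / (2 * (2 * L : ℝ) ^ d) * ((2 * L : ℝ) ^ d * ((2 * n + 1 : ℕ) : ℝ) ^ d) :=
          mul_le_mul_of_nonneg_left h6 hε.le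
      _ = _ := by field_simp
  have h7 : Real.exp (c / 2 * ((2 * n + 1 : ℕ) : ℝ) ^ d) ≤ 2 := by
    have h8 := h4.trans (mul_le_mul_of_nonneg_left (Real.exp_le_exp.2 h5) (by norm_num))
    have h9 : c * ((2 * n + 1 : ℕ) : ℝ) ^ d = c / 2 * ((2 * n + 1 : ℕ) : ℝ) ^ d +
        c / 2 * ((2 * n + 1 : ℕ) : ℝ) ^ d := by ring
    rw [h9, Real.exp_add] at h8
    exact le_of_mul_le_mul_right h8 (Real.exp_pos _)
  have h10 : c / 2 * ((2 * n + 1 : ℕ) : ℝ) ^ d ≤ Real.log 2 := by
    rw [Real.le_log_iff_exp_le (by norm_num)]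
    exact h7
  have h11 : (M : ℝ) ≤ ((2 * n + 1 : ℕ) : ℝ) ^ d := by
    have h12 : ((2 * n + 1 : ℕ) : ℝ) ≤ ((2 * n + 1 : ℕ) : ℝ) ^ d :=
      le_self_pow₀ (by exact_mod_cast (by omega : 1 ≤ 2 * n + 1)) hd
    refine le_trans ?_ h12
    exact_mod_cast (by omega : M ≤ 2 * n + 1)
  have h13 : c / 2 * (M : ℝ) ≤ Real.log 2 :=
    (mul_le_mul_of_nonneg_left h11 (by positivity)).trans h10
  have h14 : c / 2 * (M : ℝ) > Real.log 2 := by
    have h15 := mul_lt_mul_of_pos_left hM (by positivity : 0 < c / 2)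
    have h16 : c / 2 * (2 / c * Real.log 2) = Real.log 2 := by field_simp
    linarith
  linarith

/-- General form: subexponentially many patterns imply constancy with respect to a filter for
which nontrivial sets have positive entropy. -/
theorem const_of_patterns {d : ℕ} {V : Type} [Finite V] {ℱ : Filter (FreePart d)} [NeBot ℱ]
    (F : FreePart d → V)
    (hpat : ∀ v, (∃ᶠ x in ℱ, F x = v) → (∃ᶠ x in ℱ, F x ≠ v) → PosPatterns d {x | F x = v})
    (hent : ∀ ε : ℝ, 0 < ε → ∃ᶠ n : ℕ in atTop,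
      ((patterns F n).ncard : ℝ) ≤ Real.exp (ε * ((2 * n + 1 : ℕ) : ℝ) ^ d)) :
    ∃ v, ∀ᶠ x in ℱ, F x = v := by
  classical
  have hv : ∃ v, ∃ᶠ x in ℱ, F x = v := by
    by_contra hcon
    push Not at hcon
    have h1 : ∀ᶠ x in ℱ, ∀ v, F x ≠ v := Filter.eventually_all.2 fun v => by
      simpa [Filter.not_frequently] using hcon v
    obtain ⟨x, hx⟩ := h1.exists
    exact hx _ rfl
  obtain ⟨v, hv⟩ := hv
  refine ⟨v, ?_⟩
  by_contra hcon
  have hcon' : ∃ᶠ x in ℱ, F x ≠ v := by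
    rw [Filter.not_eventually] at hcon
    exact hcon
  by_cases hd : d = 0
  · subst hd
    obtain ⟨n, hn⟩ := (hent (Real.log 2 / 2) (by positivity)).exists
    obtain ⟨x, hx⟩ := hv.exists
    obtain ⟨y, hy⟩ := hcon'.exists
    have h1 : Real.exp (Real.log 2 / 2 * ((2 * n + 1 : ℕ) : ℝ) ^ 0) < 2 := by
      rw [pow_zero, mul_one]
      calc Real.exp (Real.log 2 / 2) < Real.exp (Real.log 2) := by
            apply Real.exp_lt_exp.2
            have := Real.log_pos (by norm_num : (1 : ℝ) < 2)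
            linarith
        _ = 2 := Real.exp_log (by norm_num)
    have h2 : (patterns F n).ncard ≤ 1 := by
      have h3 : ((patterns F n).ncard : ℝ) < 2 := hn.trans_lt h1
      have h4 : (patterns F n).ncard < 2 := by exact_mod_cast h3
      omega
    rw [Set.ncard_le_one (Set.toFinite _)] at h2
    have h3 := h2 _ ⟨x, rfl⟩ _ ⟨y, rfl⟩
    have h4 : (0 : G 0) ∈ ball 0 n := mem_ball.2 (fun j => by simp)
    have h5 := congrFun h3 ⟨0, h4⟩
    simp only [act_zero] at h5
    rw [hx] at h5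
    exact hy h5.symm
  · exact not_posPatterns F hent hd v (hpat v hv hcon')

theorem posPatterns_residual {d : ℕ} (E : Set (FreePart d)) (hE : BaireMeasurableSet E)
    (h1 : ∃ᶠ x in residual (FreePart d), x ∈ E) (h0 : ∃ᶠ x in residual (FreePart d), x ∉ E) :
    PosPatterns d E := by
  classical
  obtain ⟨q₀, hq⟩ := mix_residual d (fun x => x ∈ E) (fun v => by
      by_cases hv : v
      · have h2 : {x | (x ∈ E) = v} = E := by
          ext x; simp [hv]
        rw [h2]; exact hE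
      · have h2 : {x | (x ∈ E) = v} = Eᶜ := by
          ext x; simp [hv]
        rw [h2]; exact hE.compl) {True, False} (by
      intro v hv
      rw [Finset.mem_insert, Finset.mem_singleton] at hv
      rcases hv with rfl | rfl
      · simpa using h1
      · simpa using h0)
  refine ⟨max q₀ 1, Real.log 2, by omega, Real.log_pos (by norm_num), fun n => ?_⟩
  have h2 : {w : ball d n → Prop | ∃ x, ∀ g : ball d n,
      w g ↔ act (max q₀ 1 • (g : G d)) x ∈ E} = Set.univ := by
    refine Set.eq_univ_of_forall fun w => ?_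
    obtain ⟨x, hx⟩ := hq (max q₀ 1) (le_max_left _ _) (ball d n)
      (fun g => if hg : g ∈ ball d n then w ⟨g, hg⟩ else True) (by
        intro g hg
        simp only [hg, dif_pos, Finset.mem_insert, Finset.mem_singleton]
        by_cases hw : w ⟨g, hg⟩ <;> simp [hw])
    refine ⟨x, fun g => ?_⟩
    have h3 := hx g.1 g.2
    rw [dif_pos g.2] at h3
    exact (iff_of_eq h3).symm
  rw [h2, Set.ncard_univ, Nat.card_eq_fintype_card, Fintype.card_fun, Fintype.card_coe,
    card_ball, Fintype.card_prop]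
  have h3 : Real.exp (Real.log 2 * ((2 * n + 1 : ℕ) : ℝ) ^ d) =
      (2 : ℝ) ^ ((2 * n + 1) ^ d) := by
    rw [show ((2 * n + 1 : ℕ) : ℝ) ^ d = (((2 * n + 1) ^ d : ℕ) : ℝ) by push_cast; ring,
      mul_comm, Real.exp_nat_mul, Real.exp_log (by norm_num)]
  rw [h3]
  push_cast
  have h4 : (0 : ℝ) < (2 : ℝ) ^ ((2 * n + 1) ^ d) := by positivity
  linarith

instance neBot_residual_freePart (d : ℕ) : NeBot (residual (FreePart d)) := by
  refine Filter.neBot_iff.2 fun h => ?_
  have h1 : (∅ : Set (FreePart d)) ∈ residual (FreePart d) := by rw [h]; exact Filter.mem_bot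
  obtain ⟨x, hx⟩ := (dense_of_mem_residual h1).nonempty
  exact hx

/-- Baire measurable functions with subexponentially many patterns are constant on a comeagre
set. -/
theorem const_residual {d : ℕ} {V : Type} [Finite V] (F : FreePart d → V)
    (hF : ∀ v, BaireMeasurableSet {x | F x = v})
    (hent : ∀ ε : ℝ, 0 < ε → ∃ᶠ n : ℕ in atTop,
      ((patterns F n).ncard : ℝ) ≤ Real.exp (ε * ((2 * n + 1 : ℕ) : ℝ) ^ d)) :
    ∃ v, ∀ᶠ x in residual (FreePart d), F x = v :=
  const_of_patterns F (fun v h1 h0 => posPatterns_residual _ (hF v) h1 h0) hent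

end Pool.Agent.H62.BS
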