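import Pool.Agent.H62.BS.Const
import Pool.Agent.H62.BS.CoinEntropy

/-!
Coin measurable functions with subexponentially many patterns are almost surely constant
(helper62).
-/

set_option autoImplicit false

open MeasureTheory Topology Filter Set

namespace Pool.Agent.H62.BS

/-- Coin measurable functions with subexponentially many patterns are constant almost
everywhere. -/
theorem const_coin {d : ℕ} {V : Type} [Finite V] (F : FreePart d → V)
    (hF : ∀ v, NullMeasurableSet {x | F x = v} (coin d))
    (hent : ∀ ε : ℝ, 0 < ε → ∃ᶠ n : ℕ in atTop,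
      ((patterns F n).ncard : ℝ) ≤ Real.exp (ε * ((2 * n + 1 : ℕ) : ℝ) ^ d)) :
    ∃ v, ∀ᶠ x in ae (coin d), F x = v :=
  const_of_patterns F (fun v h1 h0 => patterns_coin d _ (hF v) h1 h0) hent

/-- The set of patterns in another form. -/
theorem patterns_eq {d : ℕ} {V : Type} (F : FreePart d → V) (n : ℕ) :
    patterns F n = {w : ball d n → V | ∃ x, ∀ g : ball d n, w g = F (act (g : G d) x)} := by
  ext w
  constructor
  · rintro ⟨x, rfl⟩
    exact ⟨x, fun _ => rfl⟩
  · rintro ⟨x, hx⟩
    exact ⟨x, funext fun g => (hx g).symm⟩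

/-- `const_residual` in the form with the other pattern sets. -/
theorem const_residual' {d : ℕ} (V : Type) [Finite V] (F : FreePart d → V)
    (hF : ∀ v, BaireMeasurableSet {x | F x = v})
    (hn : ∀ ε : ℝ, 0 < ε → ∃ᶠ n : ℕ in atTop,
      (Set.ncard {w : ball d n → V | ∃ x, ∀ g : ball d n, w g = F (act (g : G d) x)} : ℝ) ≤
        Real.exp (ε * ((2 * n + 1 : ℕ) : ℝ) ^ d)) :
    ∃ v, ∀ᶠ x in residual (FreePart d), F x = v :=
  const_residual F hF (by simpa only [patterns_eq] using hn)

/-- `const_coin` in the form with the other pattern sets. -/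
theorem const_coin' {d : ℕ} (V : Type) [Finite V] (F : FreePart d → V)
    (hF : ∀ v, NullMeasurableSet {x | F x = v} (coin d))
    (hn : ∀ ε : ℝ, 0 < ε → ∃ᶠ n : ℕ in atTop,
      (Set.ncard {w : ball d n → V | ∃ x, ∀ g : ball d n, w g = F (act (g : G d) x)} : ℝ) ≤
        Real.exp (ε * ((2 * n + 1 : ℕ) : ℝ) ^ d)) :
    ∃ v, ∀ᶠ x in ae (coin d), F x = v :=
  const_coin F hF (by simpa only [patterns_eq] using hn)

end Pool.Agent.H62.BS
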