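import Mathlib

/-!
Borel, Baire measurable and measurable equivariant maps from the free part of the Bernoulli shift
`2^(ℤ^d)` to subshifts (MP_6540cb_lc).  Common definitions (helper62).
-/

set_option autoImplicit false

open MeasureTheory Topology Filter Set

namespace Pool.Agent.H62.BS

/-- The group `ℤ^d`. -/
abbrev G (d : ℕ) : Type := Fin d → ℤ

/-- Configurations on `ℤ^d` with values in `A`. -/
abbrev Conf (d : ℕ) (A : Type) : Type := G d → A

/-- The shift action `(g · x)(h) = x (h + g)`. -/
def sh {d : ℕ} {A : Type} (g : G d) (x : Conf d A) : Conf d A := fun h => x (h + g)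

/-- The free part of the shift action of `ℤ^d` on `{0,1}^(ℤ^d)`, with the subspace topology. -/
def FreePart (d : ℕ) : Set (Conf d Bool) := {x | ∀ g : G d, g ≠ 0 → sh g x ≠ x}

theorem sh_sh {d : ℕ} {A : Type} (g h : G d) (x : Conf d A) : sh g (sh h x) = sh (g + h) x := by
  funext k
  simp only [sh]
  congr 1
  abel

theorem sh_zero {d : ℕ} {A : Type} (x : Conf d A) : sh 0 x = x := by
  funext k
  simp [sh]

/-- The action of `ℤ^d` on the free part. -/
def act {d : ℕ} (g : G d) (x : FreePart d) : FreePart d :=
  ⟨sh g x.1, fun h hh he => x.2 h hh (by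
    have h1 : sh (-g) (sh h (sh g x.1)) = sh (-g) (sh g x.1) := by rw [he]
    rw [sh_sh, sh_sh, sh_sh, neg_add_cancel, sh_zero] at h1
    have h2 : -g + (h + g) = h := by abel
    have h3 : -g + h + g = h := by abel
    first
      | rwa [h2] at h1
      | rwa [h3] at h1)⟩

/-- The set `S` of configurations is closed and invariant under the shifts. -/
structure IsSubshift {d : ℕ} {A : Type} [TopologicalSpace A] (S : Set (Conf d A)) : Prop where
  closed : IsClosed S
  shift : ∀ (g : G d) (x : Conf d A), x ∈ S → sh g x ∈ S

/-- There is an equivariant map from the free part to `S` such that the preimages of all Borel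
sets are `good`. -/
def HasMap {d : ℕ} {A : Type} [TopologicalSpace A] (good : Set (FreePart d) → Prop)
    (S : Set (Conf d A)) : Prop :=
  ∃ T : FreePart d → Conf d A, (∀ x, T x ∈ S) ∧ (∀ g x, T (act g x) = sh g (T x)) ∧
    ∀ B : Set (Conf d A), MeasurableSet[borel (Conf d A)] B → good (T ⁻¹' B)

/-- (i): there is a Borel equivariant map. -/
def BorelMap {d : ℕ} {A : Type} [TopologicalSpace A] (S : Set (Conf d A)) : Prop :=
  HasMap (fun E => MeasurableSet E) S

/-- (ii): there is a Baire measurable equivariant map. -/
def BaireMap {d : ℕ} {A : Type} [TopologicalSpace A] (S : Set (Conf d A)) : Prop :=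
  HasMap (fun E => BaireMeasurableSet E) S

/-- there is a `μ`-measurable equivariant map. -/
def MeasMap {d : ℕ} {A : Type} [TopologicalSpace A] (μ : Measure (FreePart d))
    (S : Set (Conf d A)) : Prop :=
  HasMap (fun E => NullMeasurableSet E μ) S

/-- The fair coin measure on the free part. -/
noncomputable def coin (d : ℕ) : Measure (FreePart d) :=
  (Measure.infinitePi (fun _ : G d => (PMF.uniformOfFintype Bool).toMeasure)).comap Subtype.val

/-- `S` is strongly irreducible: configurations of `S` can be glued along sets which are separated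
by a fixed finite set `W`. -/
def StronglyIrreducible {d : ℕ} {A : Type} (S : Set (Conf d A)) : Prop :=
  ∃ W : Finset (G d), ∀ P Q : Set (G d), (∀ g ∈ P, ∀ w ∈ W, g + w ∉ Q) →
    ∀ x ∈ S, ∀ y ∈ S, ∃ z ∈ S, (∀ g ∈ P, z g = x g) ∧ ∀ g ∈ Q, z g = y g

/-- The ball of radius `r` for the maximum norm. -/
noncomputable def ball (d r : ℕ) : Finset (G d) := Finset.Icc (fun _ => -(r : ℤ)) (fun _ => (r : ℤ))

theorem mem_ball {d r : ℕ} {g : G d} : g ∈ ball d r ↔ ∀ j, |g j| ≤ (r : ℤ) := by
  simp only [ball, Finset.mem_Icc, Pi.le_def, abs_le]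
  exact ⟨fun h j => ⟨h.1 j, h.2 j⟩, fun h => ⟨fun j => (h j).1, fun j => (h j).2⟩⟩

theorem act_act {d : ℕ} (g h : G d) (x : FreePart d) : act g (act h x) = act (g + h) x :=
  Subtype.ext (sh_sh g h x.1)

theorem act_zero {d : ℕ} (x : FreePart d) : act 0 x = x := Subtype.ext (sh_zero x.1)

theorem act_val {d : ℕ} (g : G d) (x : FreePart d) (h : G d) : (act g x).1 h = x.1 (h + g) := rfl

/-- the action is free -/
theorem act_inj {d : ℕ} {g h : G d} {x : FreePart d} (he : act g x = act h x) : g = h := by
  by_contra hne
  apply x.2 (g - h) (sub_ne_zero.2 hne)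
  have h1 := congrArg (act (-h)) he
  rw [act_act, act_act, neg_add_cancel, act_zero] at h1
  have h2 : -h + g = g - h := by abel
  rw [h2] at h1
  exact congrArg Subtype.val h1

theorem continuous_act {d : ℕ} (g : G d) : Continuous (act g : FreePart d → FreePart d) := by
  refine continuous_induced_rng.2 (continuous_pi fun h => ?_)
  exact (continuous_apply (h + g)).comp continuous_subtype_val

theorem measurable_act {d : ℕ} (g : G d) : Measurable (act g : FreePart d → FreePart d) := by
  refine Measurable.subtype_mk (measurable_pi_iff.2 fun h => ?_)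
  exact (measurable_pi_apply (h + g)).comp measurable_subtype_coe

/-- The action of an element as a homeomorphism. -/
def actHomeo {d : ℕ} (g : G d) : FreePart d ≃ₜ FreePart d where
  toFun := act g
  invFun := act (-g)
  left_inv x := by rw [act_act, neg_add_cancel, act_zero]
  right_inv x := by rw [act_act, add_neg_cancel, act_zero]
  continuous_toFun := continuous_act g
  continuous_invFun := continuous_act (-g)

end Pool.Agent.H62.BS
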