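import Pool.Agent.H62.BS.Defs

/-!
Duality between vectors of Laurent polynomials and configurations with values in `(ℤ/n)^ι`
(MP_6540cb_lc, part BS-9, helper23).
-/

set_option autoImplicit false

open MeasureTheory Topology Filter Set

namespace Pool.Agent.H62.BS

/-- pairing of vectors of Laurent polynomials with configurations -/
noncomputable def pair {d n : ℕ} {ι : Type} [Fintype ι] (u : ι → AddMonoidAlgebra ℤ (G d))
    (z : Conf d (ι → ZMod n)) : ZMod n :=
  ∑ j, (u j).coeff.sum fun h c => (c : ZMod n) * z h j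

section pairing

variable {d n : ℕ} {ι : Type} [Fintype ι]

theorem pair_add_left (u v : ι → AddMonoidAlgebra ℤ (G d)) (z : Conf d (ι → ZMod n)) :
    pair (u + v) z = pair u z + pair v z := by
  unfold pair
  rw [← Finset.sum_add_distrib]
  refine Finset.sum_congr rfl fun j _ => ?_
  rw [Pi.add_apply, AddMonoidAlgebra.coeff_add, Finsupp.sum_add_index']
  · intro a
    simp
  · intro a b c
    push_cast
    ring

theorem pair_zero_left (z : Conf d (ι → ZMod n)) :
    pair (0 : ι → AddMonoidAlgebra ℤ (G d)) z = 0 := by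
  unfold pair
  refine Finset.sum_eq_zero fun j _ => ?_
  rw [Pi.zero_apply, AddMonoidAlgebra.coeff_zero, Finsupp.sum_zero_index]

/-- The pairing as an additive homomorphism in the first variable. -/
noncomputable def pairHomLeft (z : Conf d (ι → ZMod n)) :
    (ι → AddMonoidAlgebra ℤ (G d)) →+ ZMod n where
  toFun u := pair u z
  map_zero' := pair_zero_left z
  map_add' u v := pair_add_left u v z

theorem pairHomLeft_apply (u : ι → AddMonoidAlgebra ℤ (G d)) (z : Conf d (ι → ZMod n)) :
    pairHomLeft z u = pair u z := rfl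

theorem pair_neg_left (u : ι → AddMonoidAlgebra ℤ (G d)) (z : Conf d (ι → ZMod n)) :
    pair (-u) z = -pair u z := map_neg (pairHomLeft z) u

theorem pair_sub_left (u v : ι → AddMonoidAlgebra ℤ (G d)) (z : Conf d (ι → ZMod n)) :
    pair (u - v) z = pair u z - pair v z := map_sub (pairHomLeft z) u v

theorem pair_zsmul_left (c : ℤ) (u : ι → AddMonoidAlgebra ℤ (G d)) (z : Conf d (ι → ZMod n)) :
    pair (c • u) z = (c : ZMod n) * pair u z := by
  have h := map_zsmul (pairHomLeft z) c u
  rw [pairHomLeft_apply, pairHomLeft_apply] at h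
  rw [h]
  exact zsmul_eq_mul (pair u z) c

theorem pair_nsmul_left (c : ℕ) (u : ι → AddMonoidAlgebra ℤ (G d)) (z : Conf d (ι → ZMod n)) :
    pair (c • u) z = (c : ZMod n) * pair u z := by
  have h := map_nsmul (pairHomLeft z) c u
  rw [pairHomLeft_apply, pairHomLeft_apply] at h
  rw [h]
  exact nsmul_eq_mul c (pair u z)

theorem pair_sum_left {κ : Type*} (s : Finset κ) (u : κ → ι → AddMonoidAlgebra ℤ (G d))
    (z : Conf d (ι → ZMod n)) : pair (∑ a ∈ s, u a) z = ∑ a ∈ s, pair (u a) z :=
  map_sum (pairHomLeft z) u s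

theorem pair_add_right (u : ι → AddMonoidAlgebra ℤ (G d)) (z w : Conf d (ι → ZMod n)) :
    pair u (z + w) = pair u z + pair u w := by
  unfold pair
  rw [← Finset.sum_add_distrib]
  refine Finset.sum_congr rfl fun j _ => ?_
  rw [← Finsupp.sum_add]
  refine Finsupp.sum_congr fun h _ => ?_
  rw [Pi.add_apply, Pi.add_apply, mul_add]

theorem pair_zero (u : ι → AddMonoidAlgebra ℤ (G d)) :
    pair u (0 : Conf d (ι → ZMod n)) = 0 := by
  unfold pair
  refine Finset.sum_eq_zero fun j _ => ?_
  rw [Finsupp.sum]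
  refine Finset.sum_eq_zero fun h _ => ?_
  rw [Pi.zero_apply, Pi.zero_apply, mul_zero]

/-- The pairing as an additive homomorphism in the second variable. -/
noncomputable def pairHomRight (u : ι → AddMonoidAlgebra ℤ (G d)) :
    Conf d (ι → ZMod n) →+ ZMod n where
  toFun z := pair u z
  map_zero' := pair_zero u
  map_add' z w := pair_add_right u z w

theorem pairHomRight_apply (u : ι → AddMonoidAlgebra ℤ (G d)) (z : Conf d (ι → ZMod n)) :
    pairHomRight u z = pair u z := rfl

theorem pair_neg_right (u : ι → AddMonoidAlgebra ℤ (G d)) (z : Conf d (ι → ZMod n)) :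
    pair u (-z) = -pair u z := map_neg (pairHomRight u) z

theorem pair_sub_right (u : ι → AddMonoidAlgebra ℤ (G d)) (z w : Conf d (ι → ZMod n)) :
    pair u (z - w) = pair u z - pair u w := map_sub (pairHomRight u) z w

theorem pair_sum_right {κ : Type*} (s : Finset κ) (u : ι → AddMonoidAlgebra ℤ (G d))
    (z : κ → Conf d (ι → ZMod n)) : pair u (∑ a ∈ s, z a) = ∑ a ∈ s, pair u (z a) :=
  map_sum (pairHomRight u) z s

/-- The pairing with a constant multiple in the second variable. -/
theorem pair_const_mul_right (c : ZMod n) (u : ι → AddMonoidAlgebra ℤ (G d))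
    (z : Conf d (ι → ZMod n)) : pair u (fun h j => c * z h j) = c * pair u z := by
  unfold pair
  rw [Finset.mul_sum]
  refine Finset.sum_congr rfl fun j _ => ?_
  rw [Finsupp.sum, Finsupp.sum, Finset.mul_sum]
  refine Finset.sum_congr rfl fun h _ => ?_
  ring

/-- The pairing depends only on the values on the supports. -/
theorem pair_eq_of_agree (u : ι → AddMonoidAlgebra ℤ (G d)) (z w : Conf d (ι → ZMod n))
    (h : ∀ j, ∀ g ∈ (u j).coeff.support, z g j = w g j) : pair u z = pair u w := by
  unfold pair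
  refine Finset.sum_congr rfl fun j _ => ?_
  exact Finsupp.sum_congr fun g hg => by rw [h j g hg]

/-- One component of the pairing. -/
noncomputable def pair1 (P : AddMonoidAlgebra ℤ (G d)) (z : Conf d (ZMod n)) : ZMod n :=
  P.coeff.sum fun h c => (c : ZMod n) * z h

theorem pair_eq_sum_pair1 (u : ι → AddMonoidAlgebra ℤ (G d)) (z : Conf d (ι → ZMod n)) :
    pair u z = ∑ j, pair1 (u j) (fun h => z h j) := rfl

theorem pair1_single (g : G d) (c : ℤ) (z : Conf d (ZMod n)) :
    pair1 (AddMonoidAlgebra.single g c) z = (c : ZMod n) * z g := by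
  unfold pair1
  rw [AddMonoidAlgebra.coeff_single, Finsupp.sum_single_index]
  simp

theorem pair1_add (P Q : AddMonoidAlgebra ℤ (G d)) (z : Conf d (ZMod n)) :
    pair1 (P + Q) z = pair1 P z + pair1 Q z := by
  unfold pair1
  rw [AddMonoidAlgebra.coeff_add, Finsupp.sum_add_index']
  · intro a
    simp
  · intro a b c
    push_cast
    ring

theorem pair1_zero (z : Conf d (ZMod n)) : pair1 (0 : AddMonoidAlgebra ℤ (G d)) z = 0 := by
  unfold pair1
  rw [AddMonoidAlgebra.coeff_zero, Finsupp.sum_zero_index]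

/-- `pair1` as an additive homomorphism in the first variable. -/
noncomputable def pair1Hom (z : Conf d (ZMod n)) : AddMonoidAlgebra ℤ (G d) →+ ZMod n where
  toFun P := pair1 P z
  map_zero' := pair1_zero z
  map_add' P Q := pair1_add P Q z

theorem pair1Hom_apply (P : AddMonoidAlgebra ℤ (G d)) (z : Conf d (ZMod n)) :
    pair1Hom z P = pair1 P z := rfl

/-- A Laurent polynomial is the sum of its monomials. -/
theorem sum_single (P : AddMonoidAlgebra ℤ (G d)) :
    ∑ a ∈ P.coeff.support, AddMonoidAlgebra.single a (P.coeff a) = P := by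
  apply AddMonoidAlgebra.coeff_injective
  rw [AddMonoidAlgebra.coeff_sum]
  simp only [AddMonoidAlgebra.coeff_single]
  exact Finsupp.sum_single P.coeff

theorem pair1_single_mul (g : G d) (c : ℤ) (P : AddMonoidAlgebra ℤ (G d))
    (z : Conf d (ZMod n)) :
    pair1 (AddMonoidAlgebra.single g c * P) z = (c : ZMod n) * pair1 P (sh g z) := by
  have h1 : ∀ Q : AddMonoidAlgebra ℤ (G d), pair1 Q z = pair1Hom z Q := fun Q => rfl
  have h2 : ∀ Q : AddMonoidAlgebra ℤ (G d), pair1 Q (sh g z) = pair1Hom (sh g z) Q := fun Q => rfl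
  conv_lhs => rw [← sum_single P, Finset.mul_sum, h1, map_sum]
  conv_rhs => rw [← sum_single P, h2, map_sum, Finset.mul_sum]
  refine Finset.sum_congr rfl fun a _ => ?_
  rw [pair1Hom_apply, pair1Hom_apply, AddMonoidAlgebra.single_mul_single, pair1_single,
    pair1_single]
  simp only [sh]
  push_cast
  rw [add_comm g a]
  ring

theorem pair_single_mul (g : G d) (c : ℤ) (u : ι → AddMonoidAlgebra ℤ (G d))
    (z : Conf d (ι → ZMod n)) :
    pair (fun j => AddMonoidAlgebra.single g c * u j) z = (c : ZMod n) * pair u (sh g z) := by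
  rw [pair_eq_sum_pair1, pair_eq_sum_pair1, Finset.mul_sum]
  refine Finset.sum_congr rfl fun j _ => ?_
  rw [pair1_single_mul]
  rfl

theorem pair_mul (P : AddMonoidAlgebra ℤ (G d)) (u : ι → AddMonoidAlgebra ℤ (G d))
    (z : Conf d (ι → ZMod n)) :
    pair (fun j => P * u j) z =
      ∑ a ∈ P.coeff.support, (P.coeff a : ZMod n) * pair u (sh a z) := by
  have h1 : (fun j => P * u j) =
      ∑ a ∈ P.coeff.support, fun j => AddMonoidAlgebra.single a (P.coeff a) * u j := by
    funext j
    rw [Finset.sum_apply, ← Finset.sum_mul, sum_single]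
  rw [h1, pair_sum_left]
  exact Finset.sum_congr rfl fun a _ => pair_single_mul a (P.coeff a) u z

/-- The same as `pair_mul`, for the scalar multiplication. -/
theorem pair_smul (P : AddMonoidAlgebra ℤ (G d)) (u : ι → AddMonoidAlgebra ℤ (G d))
    (z : Conf d (ι → ZMod n)) :
    pair (P • u) z = ∑ a ∈ P.coeff.support, (P.coeff a : ZMod n) * pair u (sh a z) :=
  pair_mul P u z

theorem pair_pi_single [DecidableEq ι] (j : ι) (P : AddMonoidAlgebra ℤ (G d))
    (z : Conf d (ι → ZMod n)) : pair (Pi.single j P) z = pair1 P (fun h => z h j) := by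
  rw [pair_eq_sum_pair1, Finset.sum_eq_single j]
  · rw [Pi.single_eq_same]
  · intro i _ hi
    rw [Pi.single_eq_of_ne hi, pair1_zero]
  · intro h
    exact absurd (Finset.mem_univ j) h

/-- The pairing with a unit vector is the evaluation. -/
theorem pair_single_one [DecidableEq ι] (j : ι) (h : G d) (z : Conf d (ι → ZMod n)) :
    pair (Pi.single j (AddMonoidAlgebra.single h 1)) z = z h j := by
  rw [pair_pi_single, pair1_single]
  simp

end pairing

/-- A finite group of exponent dividing `n` has enough homomorphisms to `ℤ/n`. -/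
theorem exists_hom_zmod (n : ℕ) [NeZero n] (Q : Type) [AddCommGroup Q] (hQ : ∀ x : Q, n • x = 0)
    (a : Q) (ha : a ≠ 0) : ∃ f : Q →+ ZMod n, f a ≠ 0 := by
  have hn : (n : ℚ) ≠ 0 := Nat.cast_ne_zero.2 (NeZero.ne n)
  -- the embedding of `ℤ/n` into the circle
  let t : AddCircle (1 : ℚ) := ((1 / (n : ℚ) : ℚ) : AddCircle (1 : ℚ))
  have ht : (n : ℤ) • t = 0 := by
    have h1 : (n : ℤ) • t = (((n : ℤ) • (1 / (n : ℚ)) : ℚ) : AddCircle (1 : ℚ)) := by
      rw [AddCircle.coe_zsmul]
    rw [h1, AddCircle.coe_eq_zero_iff]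
    refine ⟨1, ?_⟩
    rw [zsmul_eq_mul, zsmul_eq_mul]
    push_cast
    field_simp
  let φ : ZMod n →+ AddCircle (1 : ℚ) := ZMod.lift n ⟨zmultiplesHom _ t, by
    rw [zmultiplesHom_apply]
    exact ht⟩
  have hφ : ∀ k : ℤ, φ (k : ZMod n) = k • t := by
    intro k
    show ZMod.lift n _ (k : ZMod n) = _
    rw [ZMod.lift_coe]
    rfl
  have hinj : Function.Injective φ := by
    rw [injective_iff_map_eq_zero]
    intro x hx
    obtain ⟨k, rfl⟩ := ZMod.intCast_surjective x
    rw [hφ] at hx
    have h1 : k • t = ((k • (1 / (n : ℚ)) : ℚ) : AddCircle (1 : ℚ)) := by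
      rw [AddCircle.coe_zsmul]
    rw [h1, AddCircle.coe_eq_zero_iff] at hx
    obtain ⟨m, hm⟩ := hx
    rw [zsmul_eq_mul, zsmul_eq_mul, mul_one] at hm
    have h2 : (k : ℚ) = m * n := by
      rw [hm]
      field_simp
    have h3 : k = m * n := by exact_mod_cast h2
    rw [ZMod.intCast_zmod_eq_zero_iff_dvd]
    exact ⟨m, by rw [h3]; ring⟩
  have hrange : ∀ y : AddCircle (1 : ℚ), n • y = 0 → y ∈ φ.range := by
    intro y hy
    induction y using QuotientAddGroup.induction_on with
    | H q =>
      have h1 : ((n • q : ℚ) : AddCircle (1 : ℚ)) = 0 := hy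
      rw [AddCircle.coe_eq_zero_iff] at h1
      obtain ⟨m, hm⟩ := h1
      rw [zsmul_eq_mul, nsmul_eq_mul, mul_one] at hm
      refine ⟨(m : ZMod n), ?_⟩
      rw [hφ]
      have h2 : m • t = ((m • (1 / (n : ℚ)) : ℚ) : AddCircle (1 : ℚ)) := by
        rw [AddCircle.coe_zsmul]
      rw [h2]
      have h3 : (m • (1 / (n : ℚ)) : ℚ) = q := by
        rw [zsmul_eq_mul, hm]
        field_simp
      rw [h3]
  obtain ⟨c, hc⟩ := CharacterModule.exists_character_apply_ne_zero_of_ne_zero ha
  let c' : Q →+ AddCircle (1 : ℚ) := c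
  have hc' : ∀ x : Q, c' x ∈ φ.range := by
    intro x
    apply hrange
    rw [← map_nsmul, hQ, map_zero]
  refine ⟨(AddMonoidHom.ofInjective hinj).symm.toAddMonoidHom.comp (c'.codRestrict φ.range hc'),
    fun h => hc ?_⟩
  have h1 : (AddMonoidHom.ofInjective hinj).symm (c'.codRestrict φ.range hc' a) = 0 := h
  rw [AddEquiv.map_eq_zero_iff] at h1
  exact congrArg Subtype.val h1

/-- duality: an element killed by the annihilator of the subgroup `H` is a limit of elements of
`H` -/
theorem approx_of_pair {d n : ℕ} [NeZero n] {ι : Type} [Fintype ι]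
    (H : AddSubgroup (Conf d (ι → ZMod n))) (z : Conf d (ι → ZMod n))
    (hz : ∀ u : ι → AddMonoidAlgebra ℤ (G d), (∀ h ∈ H, pair u h = 0) → pair u z = 0)
    (F : Finset (G d)) : ∃ h ∈ H, ∀ g ∈ F, h g = z g := by
  classical
  -- restriction to the window
  let res : Conf d (ι → ZMod n) →+ (F → ι → ZMod n) :=
    { toFun := fun w g => w g.1
      map_zero' := rfl
      map_add' := fun _ _ => rfl }
  by_cases hmem : res z ∈ H.map res
  · obtain ⟨h, hh, he⟩ := hmem
    exact ⟨h, hh, fun g hg => congrFun he ⟨g, hg⟩⟩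
  exfalso
  let B := H.map res
  have hne : (QuotientAddGroup.mk (res z) : (F → ι → ZMod n) ⧸ B) ≠ 0 := by
    rw [Ne, QuotientAddGroup.eq_zero_iff]
    exact hmem
  obtain ⟨f, hf⟩ := exists_hom_zmod n ((F → ι → ZMod n) ⧸ B) (by
    intro x
    induction x using QuotientAddGroup.induction_on with
    | H w =>
      have h1 : n • w = 0 := by
        funext g j
        simp
      have h2 : (QuotientAddGroup.mk (n • w) : (F → ι → ZMod n) ⧸ B) = 0 := by
        rw [h1]
        rfl
      exact h2) _ hne
  let f' : (F → ι → ZMod n) →+ ZMod n := f.comp (QuotientAddGroup.mk' B)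
  have hf' : ∀ w ∈ B, f' w = 0 := by
    intro w hw
    show f (QuotientAddGroup.mk w) = 0
    rw [(QuotientAddGroup.eq_zero_iff w).2 hw, map_zero]
  -- the coefficients
  let m : F → ι → ℤ := fun g j => ((f' (Pi.single g (Pi.single j 1))).val : ℤ)
  have hm : ∀ g j, (m g j : ZMod n) = f' (Pi.single g (Pi.single j 1)) := by
    intro g j
    simp [m]
  have hfw : ∀ w : F → ι → ZMod n, f' w = ∑ g, ∑ j, (m g j : ZMod n) * w g j := by
    intro w
    have h1 : w = ∑ g, ∑ j, (w g j).val • (Pi.single g (Pi.single j 1) : F → ι → ZMod n) := by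
      funext g' j'
      rw [Finset.sum_apply, Finset.sum_apply, Finset.sum_eq_single g', Finset.sum_apply,
        Finset.sum_apply, Finset.sum_eq_single j']
      · simp
      · intro j _ hj
        simp [Pi.single_eq_of_ne (Ne.symm hj)]
      · intro h
        exact absurd (Finset.mem_univ _) h
      · intro g _ hg
        rw [Finset.sum_apply, Finset.sum_apply]
        refine Finset.sum_eq_zero fun j _ => ?_
        simp [Pi.single_eq_of_ne (Ne.symm hg)]
      · intro h
        exact absurd (Finset.mem_univ _) h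
    conv_lhs => rw [h1, map_sum]
    refine Finset.sum_congr rfl fun g _ => ?_
    rw [map_sum]
    refine Finset.sum_congr rfl fun j _ => ?_
    rw [map_nsmul, hm, nsmul_eq_mul, ZMod.natCast_zmod_val, mul_comm]
  let u : ι → AddMonoidAlgebra ℤ (G d) := fun j => ∑ g : F, AddMonoidAlgebra.single g.1 (m g j)
  have hu : ∀ w : Conf d (ι → ZMod n), pair u w = f' (res w) := by
    intro w
    rw [hfw, pair_eq_sum_pair1, Finset.sum_comm]
    refine Finset.sum_congr rfl fun j _ => ?_
    rw [← pair1Hom_apply, map_sum]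
    refine Finset.sum_congr rfl fun g _ => ?_
    rw [pair1Hom_apply, pair1_single]
    rfl
  have h1 := hz u (fun h hh => by
    rw [hu]
    exact hf' _ ⟨h, hh, rfl⟩)
  rw [hu] at h1
  exact hf h1

theorem exists_embedding (A : Type) [AddCommGroup A] [Finite A] :
    ∃ (n k : ℕ) (f : A →+ (Fin k → ZMod n)), 0 < n ∧ Function.Injective f := by
  classical
  have hcard : 0 < Nat.card A := Nat.card_pos
  have : NeZero (Nat.card A) := ⟨hcard.ne'⟩
  have h1 : ∀ a : A, ∃ f : A →+ ZMod (Nat.card A), a ≠ 0 → f a ≠ 0 := by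
    intro a
    by_cases ha : a = 0
    · exact ⟨0, fun h => absurd ha h⟩
    · obtain ⟨f, hf⟩ := exists_hom_zmod (Nat.card A) A (fun x => card_nsmul_eq_zero') a ha
      exact ⟨f, fun _ => hf⟩
  choose f hf using h1
  let e : A ≃ Fin (Nat.card A) := Finite.equivFin A
  refine ⟨Nat.card A, Nat.card A, AddMonoidHom.mk' (fun a i => f (e.symm i) a) (fun a b => ?_),
    hcard, ?_⟩
  · funext i
    simp
  · rw [injective_iff_map_eq_zero]
    intro a ha
    by_contra hne
    apply hf a hne
    have h2 := congrFun ha (e a)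
    simpa using h2

end Pool.Agent.H62.BS
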