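import Pool.Agent.H62.BS.Bases

/-!
Borel equivariant maps into strongly irreducible subshifts (helper62).
-/

set_option autoImplicit false

open MeasureTheory Topology Filter Set

namespace Pool.Agent.H62.BS

theorem exists_ball {d : ℕ} (F : Finset (G d)) : ∃ r : ℕ, ∀ g ∈ F, g ∈ ball d r := by
  refine ⟨F.sup fun g => Finset.univ.sup fun j => (g j).natAbs, fun g hg => mem_ball.2 fun j => ?_⟩
  have h1 : (g j).natAbs ≤ Finset.univ.sup fun j => (g j).natAbs :=
    Finset.le_sup (f := fun j => (g j).natAbs) (Finset.mem_univ j)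
  have h2 : (Finset.univ.sup fun j => (g j).natAbs) ≤
      F.sup fun g => Finset.univ.sup fun j => (g j).natAbs :=
    Finset.le_sup (f := fun g : G d => Finset.univ.sup fun j => (g j).natAbs) hg
  rw [Int.abs_eq_natAbs]
  exact_mod_cast h1.trans h2

/-- The orbit equivalence relation is an increasing union of Borel equivalence relations with
finite classes. -/
theorem exists_hyperfinite (d : ℕ) : ∃ B : ℕ → FreePart d → G d,
    (∀ n, Measurable (B n)) ∧
    (∀ n y, ∃ δ : ℕ, ∀ g, B n (act g y) ∈ ball d δ) ∧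
    (∀ n x g, B n x = B n (act g x) + g → B (n + 1) x = B (n + 1) (act g x) + g) ∧
    ∀ x, ∀ r : ℕ, ∃ n, ∀ g ∈ ball d r, B n x = B n (act g x) + g := by
  classical
  obtain ⟨B, hB1, hB2, hB3, hB4⟩ := exists_bases d
  have hBm : ∀ i n, Measurable (B i n) := fun i n => measurable_to_countable' (hB1 i n)
  have hPm : ∀ i, MeasurableSet {x | ∀ r : ℕ, ∃ n, ∀ g ∈ ball d r,
      B i n x = B i n (act g x) + g} := by
    intro i
    simp only [ofPred_forall, ofPred_exists]
    refine MeasurableSet.iInter fun r => MeasurableSet.iUnion fun n => MeasurableSet.iInter fun g =>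
      MeasurableSet.iInter fun _ => ?_
    exact measurableSet_eq_fun (hBm i n) (((hBm i n).comp (measurable_act g)).add measurable_const)
  have hinv : ∀ i x h, (∀ r : ℕ, ∃ n, ∀ g ∈ ball d r, B i n x = B i n (act g x) + g) →
      ∀ r : ℕ, ∃ n, ∀ g ∈ ball d r, B i n (act h x) = B i n (act g (act h x)) + g := by
    intro i x h hx r
    obtain ⟨s, hs⟩ := exists_ball {h}
    have hs' := hs h (by simp)
    obtain ⟨n, hn⟩ := hx (r + s)
    refine ⟨n, fun g hg => ?_⟩
    have h1 := hn (g + h) (add_mem_ball hg hs')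
    have h2 := hn h (ball_mono (Nat.le_add_left s r) hs')
    rw [act_act]
    have h3 : B i n (act h x) + h = B i n (act (g + h) x) + g + h := by
      rw [← h2, h1]; abel
    exact add_right_cancel h3
  let I : FreePart d → ℕ := fun x => Nat.find (hB4 x)
  have hIm : Measurable I := measurable_find hB4 hPm
  have hIinv : ∀ g x, I (act g x) = I x := by
    intro g x
    refine le_antisymm (Nat.find_min' _ (hinv _ _ _ (Nat.find_spec (hB4 x)))) ?_
    refine Nat.find_min' _ ?_
    have h1 := hinv _ _ (-g) (Nat.find_spec (hB4 (act g x)))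
    rw [act_act, neg_add_cancel, act_zero] at h1
    exact h1
  refine ⟨fun n x => B (I x) n x, ?_, ?_, ?_, ?_⟩
  · intro n
    have h1 : Measurable (fun p : FreePart d × ℕ => B p.2 n p.1) :=
      measurable_from_prod_countable_left fun i => hBm i n
    exact h1.comp (measurable_id.prodMk hIm)
  · intro n y
    obtain ⟨δ, hδ⟩ := hB2 (I y) n
    refine ⟨δ, fun g => ?_⟩
    simp only [hIinv]
    exact hδ _
  · intro n x g h
    simp only [hIinv] at h ⊢
    exact hB3 _ _ _ _ h
  · intro x r
    obtain ⟨n, hn⟩ := Nat.find_spec (hB4 x) r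
    refine ⟨n, fun g hg => ?_⟩
    simp only [hIinv]
    exact hn g hg

/-- gluing finitely many configurations -/
theorem glue_labels {d : ℕ} {A : Type} {S : Set (Conf d A)} (hne : S.Nonempty)
    (W : Finset (G d)) (hW : ∀ P Q : Set (G d), (∀ g ∈ P, ∀ w ∈ W, g + w ∉ Q) →
      ∀ x ∈ S, ∀ y ∈ S, ∃ z ∈ S, (∀ g ∈ P, z g = x g) ∧ ∀ g ∈ Q, z g = y g)
    (D : Set (G d)) (lab : G d → G d) (Z : G d → Conf d A) (hZ : ∀ h, Z h ∈ S)
    (hsep : ∀ g ∈ D, ∀ w ∈ W, g + w ∈ D → lab (g + w) = lab g) (L : Finset (G d)) :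
    ∃ z ∈ S, ∀ g ∈ D, lab g ∈ L → z g = Z (lab g) g := by
  classical
  induction L using Finset.induction_on with
  | empty =>
    obtain ⟨z, hz⟩ := hne
    exact ⟨z, hz, fun g _ h => absurd h (by simp)⟩
  | insert a L ha ih =>
    obtain ⟨z, hz, hz2⟩ := ih
    obtain ⟨z', hz', h1, h2⟩ := hW {g | g ∈ D ∧ lab g = a} {g | g ∈ D ∧ lab g ∈ L} (by
      rintro g ⟨hg, hga⟩ w hw ⟨h3, h4⟩
      rw [hsep g hg w hw h3, hga] at h4
      exact ha h4) (Z a) (hZ a) z hz
    refine ⟨z', hz', fun g hg hl => ?_⟩
    rcases Finset.mem_insert.1 hl with h | h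
    · rw [h1 g ⟨hg, h⟩, h]
    · rw [h2 g ⟨hg, h⟩, hz2 g hg h]

/-- a sequence in `S` which realises all finite patterns of `S` -/
theorem exists_seq {d : ℕ} {A : Type} [Finite A] [TopologicalSpace A] [DiscreteTopology A]
    {S : Set (Conf d A)} (hne : S.Nonempty) :
    ∃ z : ℕ → Conf d A, (∀ k, z k ∈ S) ∧
      ∀ y ∈ S, ∀ F : Finset (G d), ∃ k, ∀ g ∈ F, z k g = y g := by
  classical
  have : Nonempty S := hne.to_subtype
  refine ⟨fun k => (TopologicalSpace.denseSeq S k).1, fun k => (TopologicalSpace.denseSeq S k).2,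
    fun y hy F => ?_⟩
  have hopen : IsOpen {w : S | ∀ g ∈ F, w.1 g = y g} := by
    have h1 : {w : S | ∀ g ∈ F, w.1 g = y g} =
        Subtype.val ⁻¹' ((F : Set (G d)).pi fun g => ({y g} : Set A)) := by
      ext w
      simp [Set.mem_pi]
    rw [h1]
    exact (isOpen_set_pi F.finite_toSet fun g _ => isOpen_discrete _).preimage
      continuous_subtype_val
  obtain ⟨k, hk⟩ := (TopologicalSpace.denseRange_denseSeq S).exists_mem_open hopen
    ⟨⟨y, hy⟩, fun g _ => rfl⟩
  exact ⟨k, hk⟩

section Recursion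

variable {d : ℕ} {A : Type}

/-- the partial colouring determined by indices `k` -/
def fcol (z : ℕ → Conf d A) (b : FreePart d → G d) (k : FreePart d → ℕ) (x : FreePart d) : A :=
  z (k (act (b x) x)) (-(b x))

/-- deep points -/
def Deep (W : Finset (G d)) (b : FreePart d → G d) (x : FreePart d) : Prop :=
  ∀ w ∈ W, b x = b (act w x) + w

/-- the index `m` is good at the base point `y` -/
def Good (z : ℕ → Conf d A) (W : Finset (G d)) (b b' : FreePart d → G d) (k : FreePart d → ℕ)
    (y : FreePart d) (m : ℕ) : Prop :=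
  ∀ g, b' (act g y) + g = 0 → Deep W b (act g y) → z m g = fcol z b k (act g y)

theorem exists_good {S : Set (Conf d A)} (hsh : ∀ (g : G d) (x : Conf d A), x ∈ S → sh g x ∈ S)
    (W : Finset (G d)) (hW : ∀ P Q : Set (G d), (∀ g ∈ P, ∀ w ∈ W, g + w ∉ Q) →
      ∀ x ∈ S, ∀ y ∈ S, ∃ z ∈ S, (∀ g ∈ P, z g = x g) ∧ ∀ g ∈ Q, z g = y g)
    {z : ℕ → Conf d A} (hz : ∀ k, z k ∈ S)
    (hdense : ∀ y ∈ S, ∀ F : Finset (G d), ∃ k, ∀ g ∈ F, z k g = y g)
    (b b' : FreePart d → G d) (k : FreePart d → ℕ) (y : FreePart d)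
    (hb : ∃ δ : ℕ, ∀ g, b' (act g y) ∈ ball d δ) : ∃ m, Good z W b b' k y m := by
  classical
  obtain ⟨δ, hδ⟩ := hb
  obtain ⟨z', hz', h⟩ := glue_labels ⟨z 0, hz 0⟩ W hW
    {g | b' (act g y) + g = 0 ∧ Deep W b (act g y)} (fun g => b (act g y) + g)
    (fun h => sh (-h) (z (k (act h y)))) (fun h => hsh _ _ (hz _)) (by
      rintro g ⟨hg, hgd⟩ w hw -
      have h1 := hgd w hw
      rw [act_act, add_comm w g] at h1
      simp only [h1]
      abel) ((ball d δ).image fun g => b (act g y) + g)
  obtain ⟨m, hm⟩ := hdense z' hz' (ball d δ)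
  refine ⟨m, fun g hg hgd => ?_⟩
  have hgb : g ∈ ball d δ := by
    have h1 : g = -(b' (act g y)) := by
      rw [eq_neg_iff_add_eq_zero, add_comm]; exact hg
    rw [h1]
    exact neg_mem_ball (hδ g)
  rw [hm g hgb, h g ⟨hg, hgd⟩ (Finset.mem_image_of_mem _ hgb)]
  simp only [sh, fcol, act_act]
  congr 1
  abel

theorem fcol_measurable (z : ℕ → Conf d A) {b : FreePart d → G d} (hb : Measurable b)
    {k : FreePart d → ℕ} (hk : Measurable k) (a : A) :
    MeasurableSet {x | fcol z b k x = a} := by
  have h0 : Measurable (fun p : FreePart d × G d => act p.2 p.1) :=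
    measurable_from_prod_countable_left fun g => measurable_act g
  have h1 : Measurable (fun x => act (b x) x) := h0.comp (measurable_id.prodMk hb)
  have h2 : Measurable (fun x => (k (act (b x) x), b x)) := (hk.comp h1).prodMk hb
  have h3 : MeasurableSet {p : ℕ × G d | z p.1 (-p.2) = a} := MeasurableSet.of_discrete
  exact h2 h3

theorem deep_measurable (W : Finset (G d)) {b : FreePart d → G d} (hb : Measurable b) :
    MeasurableSet {x | Deep W b x} := by
  simp only [Deep, ofPred_forall]
  exact MeasurableSet.iInter fun w => MeasurableSet.iInter fun _ =>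
    measurableSet_eq_fun hb ((hb.comp (measurable_act w)).add measurable_const)

theorem good_measurable (z : ℕ → Conf d A) (W : Finset (G d)) {b b' : FreePart d → G d}
    (hb : Measurable b) (hb' : Measurable b') {k : FreePart d → ℕ} (hk : Measurable k) (m : ℕ) :
    MeasurableSet {y | Good z W b b' k y m} := by
  have h1 : {y | Good z W b b' k y m} = ⋂ g : G d,
      ({y | b' (act g y) + g = 0}ᶜ ∪ ({y | Deep W b (act g y)}ᶜ ∪
        {y | fcol z b k (act g y) = z m g})) := by
    ext y
    simp only [Good, mem_iInter, mem_union, mem_compl_iff, mem_ofPred_eq]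
    refine forall_congr' fun g => ?_
    constructor
    · intro h
      by_cases h2 : b' (act g y) + g = 0
      · by_cases h3 : Deep W b (act g y)
        · exact Or.inr (Or.inr (h h2 h3).symm)
        · exact Or.inr (Or.inl h3)
      · exact Or.inl h2
    · rintro (h | h | h) h2 h3
      · exact absurd h2 h
      · exact absurd h3 h
      · exact h.symm
  rw [h1]
  refine MeasurableSet.iInter fun g => MeasurableSet.union (MeasurableSet.compl ?_)
    (MeasurableSet.union (MeasurableSet.compl ?_) ?_)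
  · exact measurableSet_eq_fun ((hb'.comp (measurable_act g)).add measurable_const)
      measurable_const
  · exact measurable_act g (deep_measurable W hb)
  · exact measurable_act g (fcol_measurable z hb hk (z m g))

/-- the recursively defined indices -/
noncomputable def kk (z : ℕ → Conf d A) (W : Finset (G d)) (B : ℕ → FreePart d → G d) :
    ℕ → FreePart d → ℕ
  | 0 => fun _ => 0
  | n + 1 => fun y => sInf {m | Good z W (B n) (B (n + 1)) (kk z W B n) y m}

variable {z : ℕ → Conf d A} {W : Finset (G d)} {B : ℕ → FreePart d → G d}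

theorem kk_measurable (hB : ∀ n, Measurable (B n))
    (hgood : ∀ n k y, ∃ m, Good z W (B n) (B (n + 1)) k y m) (n : ℕ) :
    Measurable (kk z W B n) := by
  classical
  induction n with
  | zero => exact measurable_const
  | succ n ih =>
    have h1 : kk z W B (n + 1) = fun y => Nat.find (hgood n (kk z W B n) y) := by
      funext y
      simp only [kk]
      exact Nat.sInf_def (hgood n (kk z W B n) y)
    rw [h1]
    exact measurable_find _ fun m => good_measurable z W (hB n) (hB (n + 1)) ih m

theorem kk_good (hgood : ∀ n k y, ∃ m, Good z W (B n) (B (n + 1)) k y m) (n : ℕ)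
    (y : FreePart d) : Good z W (B n) (B (n + 1)) (kk z W B n) y (kk z W B (n + 1) y) :=
  Nat.sInf_mem (hgood n (kk z W B n) y)

theorem fcol_succ (hgood : ∀ n k y, ∃ m, Good z W (B n) (B (n + 1)) k y m) (n : ℕ)
    (x : FreePart d) (hx : Deep W (B n) x) :
    fcol z (B (n + 1)) (kk z W B (n + 1)) x = fcol z (B n) (kk z W B n) x := by
  have h1 : act (-(B (n + 1) x)) (act (B (n + 1) x) x) = x := by
    rw [act_act, neg_add_cancel, act_zero]
  have h2 := kk_good hgood n (act (B (n + 1) x) x) (-(B (n + 1) x)) (by rw [h1]; abel)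
    (by rw [h1]; exact hx)
  rw [h1] at h2
  exact h2

theorem deep_succ (hinc : ∀ n x g, B n x = B n (act g x) + g →
    B (n + 1) x = B (n + 1) (act g x) + g) {n : ℕ} {x : FreePart d} (hx : Deep W (B n) x) :
    Deep W (B (n + 1)) x := fun w hw => hinc _ _ _ (hx w hw)

theorem fcol_eventually (hgood : ∀ n k y, ∃ m, Good z W (B n) (B (n + 1)) k y m)
    (hinc : ∀ n x g, B n x = B n (act g x) + g → B (n + 1) x = B (n + 1) (act g x) + g)
    {n m : ℕ} (hnm : n ≤ m) {x : FreePart d} (hx : Deep W (B n) x) :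
    Deep W (B m) x ∧ fcol z (B m) (kk z W B m) x = fcol z (B n) (kk z W B n) x := by
  induction m, hnm using Nat.le_induction with
  | base => exact ⟨hx, rfl⟩
  | succ m _ ih => exact ⟨deep_succ hinc ih.1, (fcol_succ hgood m x ih.1).trans ih.2⟩

end Recursion

/-- A closed shift-invariant set contains a configuration as soon as it contains
approximations. -/
theorem mem_of_approx {d : ℕ} {A : Type} [TopologicalSpace A] [DiscreteTopology A]
    {S : Set (Conf d A)} (hS : IsClosed S) {x : Conf d A}
    (h : ∀ r : ℕ, ∃ y ∈ S, ∀ g ∈ ball d r, y g = x g) : x ∈ S := by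
  by_contra hx
  have h1 : Sᶜ ∈ 𝓝 x := hS.isOpen_compl.mem_nhds hx
  rw [nhds_pi, Filter.mem_pi] at h1
  obtain ⟨I, hI, t, ht, hsub⟩ := h1
  obtain ⟨r, hr⟩ := exists_ball hI.toFinset
  obtain ⟨y, hy, hyx⟩ := h r
  refine hsub (fun g hg => ?_) hy
  rw [hyx g (hr g (hI.mem_toFinset.2 hg))]
  exact mem_of_mem_nhds (ht g)

/-- There is a Borel equivariant map to every nonempty strongly irreducible subshift. -/
theorem borelMap_of_si {d : ℕ} {A : Type} [Finite A] [TopologicalSpace A] [DiscreteTopology A]
    {S : Set (Conf d A)} (hS : IsSubshift S) (hne : S.Nonempty) (hSI : StronglyIrreducible S) :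
    BorelMap S := by
  classical
  obtain ⟨W, hW⟩ := hSI
  obtain ⟨z, hz, hdense⟩ := exists_seq hne
  obtain ⟨B, hBm, hBb, hinc, hexh⟩ := exists_hyperfinite d
  have hgood : ∀ n k y, ∃ m, Good z W (B n) (B (n + 1)) k y m := fun n k y =>
    exists_good hS.shift W hW hz hdense (B n) (B (n + 1)) k y (hBb (n + 1) y)
  obtain ⟨ρ, hρ⟩ := exists_ball W
  have hdeep : ∀ x r, ∃ n, (∀ g ∈ ball d r, B n x = B n (act g x) + g) ∧
      ∀ g ∈ ball d r, Deep W (B n) (act g x) := by
    intro x r
    obtain ⟨n, hn⟩ := hexh x (r + ρ)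
    refine ⟨n, fun g hg => hn g (ball_mono (Nat.le_add_right _ _) hg), fun g hg w hw => ?_⟩
    have h1 := hn g (ball_mono (Nat.le_add_right _ _) hg)
    have h2 := hn (g + w) (add_mem_ball hg (hρ w hw))
    rw [act_act, add_comm w g]
    have h3 : B n (act g x) + g = B n (act (g + w) x) + w + g := by
      rw [← h1, h2]; abel
    exact add_right_cancel h3
  have hex : ∀ x, ∃ n, Deep W (B n) x := by
    intro x
    obtain ⟨n, -, hn⟩ := hdeep x 0
    refine ⟨n, ?_⟩
    have := hn 0 (mem_ball.2 (by simp))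
    rwa [act_zero] at this
  let N : FreePart d → ℕ := fun x => Nat.find (hex x)
  have hNm : Measurable N := measurable_find hex fun n => deep_measurable W (hBm n)
  let F : FreePart d → A := fun x => fcol z (B (N x)) (kk z W B (N x)) x
  have hF : ∀ {n x}, Deep W (B n) x → F x = fcol z (B n) (kk z W B n) x := by
    intro n x hx
    exact (fcol_eventually hgood hinc (Nat.find_min' (hex x) hx) (Nat.find_spec (hex x))).2.symm
  have hFm : ∀ a, MeasurableSet {x | F x = a} := by
    intro a
    have h1 : {x | F x = a} = ⋃ n : ℕ, ({x | N x = n} ∩ {x | fcol z (B n) (kk z W B n) x = a}) := by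
      ext x
      simp only [mem_ofPred_eq, mem_iUnion, mem_inter_iff]
      constructor
      · intro h
        exact ⟨N x, rfl, h⟩
      · rintro ⟨n, rfl, h⟩
        exact h
    rw [h1]
    refine MeasurableSet.iUnion fun n => MeasurableSet.inter ?_ ?_
    · exact hNm (measurableSet_singleton n)
    · exact fcol_measurable z (hBm n) (kk_measurable hBm hgood n) a
  refine ⟨fun x h => F (act h x), fun x => ?_, fun g x => ?_, ?_⟩
  · refine mem_of_approx hS.closed fun r => ?_
    obtain ⟨n, hn1, hn2⟩ := hdeep x r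
    refine ⟨sh (-(B n x)) (z (kk z W B n (act (B n x) x))), hS.shift _ _ (hz _), fun g hg => ?_⟩
    simp only [hF (hn2 g hg), fcol, act_act, sh]
    rw [← hn1 g hg]
    congr 1
    rw [hn1 g hg]
    abel
  · funext h
    simp only [act_act, sh]
  · let _ : MeasurableSpace A := borel A
    have : BorelSpace A := ⟨rfl⟩
    intro E hE
    have h1 : Measurable (fun x => (fun h => F (act h x) : Conf d A)) := by
      refine measurable_pi_iff.2 fun h => ?_
      have h2 : Measurable F := measurable_to_countable' hFm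
      exact h2.comp (measurable_act h)
    have h2 : MeasurableSet E := by
      have h3 : (MeasurableSpace.pi : MeasurableSpace (Conf d A)) = borel (Conf d A) :=
        BorelSpace.measurable_eq
      rw [h3]
      exact hE
    exact h1 h2

end Pool.Agent.H62.BS
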