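import Pool.Agent.H62.BS.Defs

/-!
Laurent polynomials with integer coefficients (MP_6540cb_lc, row BS-8): a prime number stays prime,
large powers become sparse modulo prime powers.
-/

set_option autoImplicit false

namespace Pool.Agent.H62.BS

/-- reduction modulo `p` of the coefficients -/
noncomputable def redp (d p : ℕ) : AddMonoidAlgebra ℤ (G d) →+* AddMonoidAlgebra (ZMod p) (G d) :=
  AddMonoidAlgebra.mapRingHom (G d) (Int.castRingHom (ZMod p))

theorem coeff_redp (d p : ℕ) (a : AddMonoidAlgebra ℤ (G d)) (g : G d) :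
    (redp d p a).coeff g = ((a.coeff g : ℤ) : ZMod p) := by
  rw [redp, AddMonoidAlgebra.coeff_mapRingHom]
  rfl

theorem coeff_natCast_mul_laurent (d n : ℕ) (a : AddMonoidAlgebra ℤ (G d)) (g : G d) :
    (((n : ℕ) : AddMonoidAlgebra ℤ (G d)) * a).coeff g = (n : ℤ) * a.coeff g := by
  rw [← nsmul_eq_mul]
  rw [AddMonoidAlgebra.coeff_smul_apply]
  simp

/-- the kernel of the reduction modulo `p` -/
theorem redp_eq_zero_iff (d p : ℕ) (a : AddMonoidAlgebra ℤ (G d)) :
    redp d p a = 0 ↔ ((p : ℕ) : AddMonoidAlgebra ℤ (G d)) ∣ a := by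
  constructor
  · intro h
    have h1 : ∀ g, (p : ℤ) ∣ a.coeff g := by
      intro g
      rw [← ZMod.intCast_zmod_eq_zero_iff_dvd, ← coeff_redp, h]
      rfl
    refine ⟨AddMonoidAlgebra.ofCoeff (a.coeff.mapRange (fun c => c / (p : ℤ)) (by simp)), ?_⟩
    apply AddMonoidAlgebra.coeff_injective
    ext g
    rw [coeff_natCast_mul_laurent]
    show a.coeff g = (p : ℤ) * (a.coeff g / (p : ℤ))
    rw [Int.mul_ediv_cancel' (h1 g)]
  · rintro ⟨b, rfl⟩
    apply AddMonoidAlgebra.coeff_injective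
    ext g
    rw [coeff_redp, coeff_natCast_mul_laurent]
    simp

/-- a prime number is prime in the Laurent polynomial ring `ℤ[ℤ^d]` -/
theorem prime_natCast_laurent (d p : ℕ) [Fact p.Prime] :
    Prime ((p : ℕ) : AddMonoidAlgebra ℤ (G d)) := by
  have hp : p.Prime := Fact.out
  refine ⟨?_, ?_, ?_⟩
  · intro h
    have h1 := coeff_natCast_mul_laurent d p 1 0
    rw [h, zero_mul] at h1
    have h2 : (1 : AddMonoidAlgebra ℤ (G d)).coeff 0 = 1 := AddMonoidAlgebra.coeff_one_zero
    rw [h2, mul_one] at h1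
    have h3 : (p : ℤ) = 0 := h1.symm
    exact hp.ne_zero (by exact_mod_cast h3)
  · intro h
    have h1 := h.map (redp d p)
    have h2 : redp d p ((p : ℕ) : AddMonoidAlgebra ℤ (G d)) = 0 :=
      (redp_eq_zero_iff d p _).2 dvd_rfl
    rw [h2] at h1
    exact not_isUnit_zero h1
  · intro a b h
    rw [← redp_eq_zero_iff, map_mul, mul_eq_zero, redp_eq_zero_iff, redp_eq_zero_iff] at h
    exact h

theorem exists_not_pow_dvd_laurent (d p : ℕ) [Fact p.Prime] (a : AddMonoidAlgebra ℤ (G d))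
    (ha : a ≠ 0) : ∃ n : ℕ, ¬ ((p : ℕ) : AddMonoidAlgebra ℤ (G d)) ^ n ∣ a := by
  have hp : p.Prime := Fact.out
  have h1 : ∃ g, a.coeff g ≠ 0 := by
    by_contra hcon
    push Not at hcon
    apply ha
    apply AddMonoidAlgebra.coeff_injective
    ext g
    exact hcon g
  obtain ⟨g, hg⟩ := h1
  refine ⟨(a.coeff g).natAbs, ?_⟩
  rintro ⟨b, hb⟩
  have h2 : a.coeff g = ((p ^ (a.coeff g).natAbs : ℕ) : ℤ) * b.coeff g := by
    rw [← coeff_natCast_mul_laurent]
    conv_lhs => rw [hb]
    push_cast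
    rfl
  have h3 : p ^ (a.coeff g).natAbs ∣ (a.coeff g).natAbs := by
    rw [← Int.natCast_dvd]
    exact ⟨_, h2⟩
  have h4 := Nat.le_of_dvd (Int.natAbs_pos.2 hg) h3
  exact absurd (Nat.lt_pow_self hp.one_lt) (not_lt.2 h4)

/-- the substitution `x ↦ x ^ q` -/
noncomputable def subst (d q : ℕ) : AddMonoidAlgebra ℤ (G d) →+* AddMonoidAlgebra ℤ (G d) :=
  AddMonoidAlgebra.mapDomainRingHom ℤ (nsmulAddMonoidHom (α := G d) q)

theorem redp_pow (d p m : ℕ) [Fact p.Prime] (P : AddMonoidAlgebra ℤ (G d)) :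
    redp d p (P ^ p ^ m) = redp d p (subst d (p ^ m) P) := by
  have hc : CharP (AddMonoidAlgebra (ZMod p) (G d)) p := by
    refine (CharP.charP_iff_prime_eq_zero (Fact.out : p.Prime)).2 ?_
    have h2 : redp d p ((p : ℕ) : AddMonoidAlgebra ℤ (G d)) = 0 :=
      (redp_eq_zero_iff d p _).2 dvd_rfl
    rwa [map_natCast] at h2
  have key : (iterateFrobenius (AddMonoidAlgebra (ZMod p) (G d)) p m).comp (redp d p)
      = (redp d p).comp (subst d (p ^ m)) := by
    apply AddMonoidAlgebra.ringHom_ext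
    · intro r
      have h1 : (AddMonoidAlgebra.single 0 r : AddMonoidAlgebra ℤ (G d)) = (r : ℤ) := by
        rfl
      rw [h1, map_intCast, map_intCast]
    · intro g
      show (iterateFrobenius (AddMonoidAlgebra (ZMod p) (G d)) p m)
          (redp d p (AddMonoidAlgebra.single g 1))
        = redp d p (subst d (p ^ m) (AddMonoidAlgebra.single g 1))
      rw [iterateFrobenius_def, redp, AddMonoidAlgebra.mapRingHom_single,
        AddMonoidAlgebra.single_pow, subst]
      have h2 : AddMonoidAlgebra.mapDomainRingHom ℤ (nsmulAddMonoidHom (α := G d) (p ^ m))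
          (AddMonoidAlgebra.single g 1) = AddMonoidAlgebra.single (p ^ m • g) 1 := by
        simp
      rw [h2, AddMonoidAlgebra.mapRingHom_single]
      simp
  have h := RingHom.congr_fun key P
  rw [map_pow]
  exact h

/-- large powers of a Laurent polynomial become sparse modulo `p ^ e` -/
theorem pow_sparse (d p e m : ℕ) [Fact p.Prime] (P : AddMonoidAlgebra ℤ (G d)) :
    ((p : ℕ) : AddMonoidAlgebra ℤ (G d)) ^ e ∣ P ^ p ^ (m + e) - subst d (p ^ m) (P ^ p ^ e) := by
  have h1 : ((p : ℕ) : AddMonoidAlgebra ℤ (G d)) ∣ P ^ p ^ m - subst d (p ^ m) P := by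
    rw [← redp_eq_zero_iff, map_sub, redp_pow, sub_self]
  have h2 := dvd_sub_pow_of_dvd_sub h1 e
  rw [← pow_mul, ← pow_add, ← map_pow] at h2
  exact (pow_dvd_pow _ (Nat.le_succ e)).trans h2

end Pool.Agent.H62.BS
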