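import Pool.Agent.H62.BS.Defs

/-!
Project BS, row BS-5: the fair coin measure on the free part of the Bernoulli shift: invariance,
approximation by cylinders, independence of far away windows, mixing of all orders.
-/

set_option autoImplicit false

open MeasureTheory Topology Filter Set ProbabilityTheory

namespace Pool.Agent.H62.BS

namespace Mix5

/-- the fair coin measure on one coordinate -/
noncomputable def one : Measure Bool := (PMF.uniformOfFintype Bool).toMeasure

instance : IsProbabilityMeasure one := by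
  unfold one
  infer_instance

theorem one_singleton (b : Bool) : one {b} = 2⁻¹ := by
  unfold one
  rw [PMF.toMeasure_apply_singleton _ _ (measurableSet_singleton b), PMF.uniformOfFintype_apply]
  simp

/-- the fair coin measure on the full shift -/
noncomputable def nu (d : ℕ) : Measure (Conf d Bool) := Measure.infinitePi (fun _ : G d => one)

instance (d : ℕ) : IsProbabilityMeasure (nu d) := by
  unfold nu
  infer_instance

theorem coin_eq (d : ℕ) : coin d = (nu d).comap Subtype.val := rfl

theorem continuous_sh {d : ℕ} (g : G d) : Continuous (sh g : Conf d Bool → Conf d Bool) :=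
  continuous_pi fun h => continuous_apply (h + g)

theorem measurable_sh {d : ℕ} (g : G d) : Measurable (sh g : Conf d Bool → Conf d Bool) :=
  measurable_pi_iff.2 fun h => measurable_pi_apply (h + g)

theorem measurableSet_fix {d : ℕ} (g : G d) : MeasurableSet {x : Conf d Bool | sh g x = x} :=
  (isClosed_eq (continuous_sh g) continuous_id).measurableSet

theorem freePart_compl (d : ℕ) :
    (FreePart d)ᶜ = ⋃ g ∈ {g : G d | g ≠ 0}, {x : Conf d Bool | sh g x = x} := by
  ext x
  simp only [FreePart, mem_compl_iff, Set.mem_ofPred_eq, mem_iUnion, exists_prop]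
  push Not
  exact Iff.rfl

theorem measurableSet_freePart (d : ℕ) : MeasurableSet (FreePart d) := by
  rw [← compl_compl (FreePart d), freePart_compl]
  exact (MeasurableSet.biUnion (Set.to_countable _) fun g _ => measurableSet_fix g).compl

theorem nu_const {d : ℕ} (s : Finset (G d)) (b : Bool) :
    nu d (Set.pi (s : Set (G d)) fun _ => {b}) = (2⁻¹ : ENNReal) ^ s.card := by
  unfold nu
  rw [Measure.infinitePi_pi _ fun _ _ => measurableSet_singleton b]
  simp only [one_singleton, Finset.prod_const]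

theorem nu_fix {d : ℕ} (g : G d) (hg : g ≠ 0) : nu d {x : Conf d Bool | sh g x = x} = 0 := by
  classical
  have hinj : Function.Injective fun k : ℕ => k • g := by
    intro a b hab
    by_contra hne
    apply hg
    funext j
    have h1 : (a : ℤ) * g j = (b : ℤ) * g j := by
      have := congrFun hab j
      simpa [nsmul_eq_mul] using this
    have h2 : ((a : ℤ) - b) * g j = 0 := by rw [sub_mul, h1, sub_self]
    rcases mul_eq_zero.1 h2 with h3 | h3
    · exact absurd (by exact_mod_cast sub_eq_zero.1 h3) hne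
    · exact h3
  have hval : ∀ x : Conf d Bool, sh g x = x → ∀ k : ℕ, x (k • g) = x 0 := by
    intro x hx k
    induction k with
    | zero => rw [zero_smul]
    | succ k ih =>
      rw [succ_nsmul, ← ih]
      exact congrFun hx (k • g)
  have hle : ∀ n : ℕ, nu d {x : Conf d Bool | sh g x = x} ≤ 2 * (2⁻¹ : ENNReal) ^ n := by
    intro n
    let s : Finset (G d) := (Finset.range n).image fun k : ℕ => k • g
    have hs : s.card = n := by
      rw [Finset.card_image_of_injective _ hinj, Finset.card_range]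
    have hsub : {x : Conf d Bool | sh g x = x} ⊆
        (Set.pi (s : Set (G d)) fun _ => {true}) ∪ (Set.pi (s : Set (G d)) fun _ => {false}) := by
      intro x hx
      have h1 := hval x hx
      cases h0 : x 0 with
      | true =>
        left
        intro i hi
        obtain ⟨k, -, rfl⟩ := Finset.mem_image.1 (Finset.mem_coe.1 hi)
        rw [mem_singleton_iff, h1 k, h0]
      | false =>
        right
        intro i hi
        obtain ⟨k, -, rfl⟩ := Finset.mem_image.1 (Finset.mem_coe.1 hi)
        rw [mem_singleton_iff, h1 k, h0]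
    refine (measure_mono hsub).trans ((measure_union_le _ _).trans ?_)
    rw [nu_const, nu_const, hs, two_mul]
  have hlim : Tendsto (fun n : ℕ => 2 * (2⁻¹ : ENNReal) ^ n) atTop (𝓝 0) := by
    have h1 := ENNReal.tendsto_pow_atTop_nhds_zero_of_lt_one
      (show (2⁻¹ : ENNReal) < 1 by
        rw [ENNReal.inv_lt_one]
        exact ENNReal.one_lt_two)
    have h2 := ENNReal.Tendsto.const_mul (a := 2) h1 (Or.inr ENNReal.ofNat_ne_top)
    rwa [mul_zero] at h2
  exact nonpos_iff_eq_zero.1 (ge_of_tendsto' hlim hle)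

theorem nu_compl (d : ℕ) : nu d (FreePart d)ᶜ = 0 := by
  rw [freePart_compl, measure_biUnion_null_iff (Set.to_countable _)]
  exact fun g hg => nu_fix g hg

theorem coin_val {d : ℕ} {E : Set (Conf d Bool)} (_hE : MeasurableSet E) :
    coin d (Subtype.val ⁻¹' E) = nu d E := by
  rw [coin_eq, comap_subtype_coe_apply (measurableSet_freePart d), Subtype.image_preimage_coe]
  have h1 : nu d (E ∩ FreePart d) = nu d E := by
    rw [Set.inter_comm]
    exact Measure.measure_inter_eq_of_ae (by
      rw [ae_iff]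
      exact nu_compl d)
  rw [Set.inter_comm] at h1
  exact h1

end Mix5

open Mix5

instance isProbabilityMeasure_coin (d : ℕ) : IsProbabilityMeasure (coin d) := by
  constructor
  have h1 := coin_val (d := d) MeasurableSet.univ
  rw [preimage_univ] at h1
  rw [h1, measure_univ]

namespace Mix5

theorem nu_sh {d : ℕ} (g : G d) {E : Set (Conf d Bool)} (hE : MeasurableSet E) :
    nu d (sh g ⁻¹' E) = nu d E := by
  have h1 : (nu d).map (fun ω (i : G d) => ω (i + g)) = nu d :=
    Measure.map_infinitePi_infinitePi_of_inj (P := fun _ : G d => one)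
      (f := fun i : G d => i + g) (add_left_injective g)
  have h2 : (nu d).map (sh g) E = nu d E := congrArg (fun m : Measure _ => m E) h1
  rwa [Measure.map_apply (measurable_sh g) hE] at h2

end Mix5

theorem measurePreserving_act {d : ℕ} (g : G d) :
    MeasurePreserving (act g) (coin d) (coin d) := by
  refine ⟨measurable_act g, Measure.ext fun E hE => ?_⟩
  obtain ⟨E', hE', rfl⟩ := hE
  rw [Measure.map_apply (measurable_act g) (measurable_subtype_coe hE'), coin_val hE']
  have h1 : act g ⁻¹' (Subtype.val ⁻¹' E') = (Subtype.val ⁻¹' (sh g ⁻¹' E') : Set (FreePart d)) :=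
    rfl
  rw [h1, coin_val (measurable_sh g hE'), nu_sh g hE']

theorem ae_coin_all_act {d : ℕ} {p : FreePart d → Prop} (h : ∀ᶠ x in ae (coin d), p x) :
    ∀ᶠ x in ae (coin d), ∀ g, p (act g x) :=
  ae_all_iff.2 fun g => (measurePreserving_act g).quasiMeasurePreserving.ae h

/-- approximation by sets depending on finitely many coordinates -/
theorem coin_approx {d : ℕ} {E : Set (FreePart d)} (hE : NullMeasurableSet E (coin d))
    {ε : ℝ} (hε : 0 < ε) : ∃ (Λ : Finset (G d)) (C : Set (Conf d Bool)),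
      (∀ x y : Conf d Bool, (∀ h ∈ Λ, x h = y h) → (x ∈ C ↔ y ∈ C)) ∧
      (coin d).real (symmDiff E (Subtype.val ⁻¹' C)) < ε := by
  obtain ⟨E₁, hE₁, hEE₁⟩ := hE
  obtain ⟨E₂, hE₂, rfl⟩ := hE₁
  obtain ⟨C, hC, hlt⟩ := exists_measure_symmDiff_lt_of_generateFrom_isSetRing (μ := nu d)
    (isSetRing_measurableCylinders (α := fun _ : G d => Bool))
    ⟨{Set.univ}, Set.countable_singleton _, by
      rw [Set.singleton_subset_iff]
      exact univ_mem_measurableCylinders _, by simp⟩
    generateFrom_measurableCylinders.symm hE₂ (ENNReal.ofReal_pos.2 hε)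
  have hCm : MeasurableSet C := MeasurableSet.of_mem_measurableCylinders hC
  obtain ⟨Λ, S, hS, hCeq⟩ := (mem_measurableCylinders _).1 hC
  refine ⟨Λ, C, fun x y hxy => ?_, ?_⟩
  · have h1 : Λ.restrict x = Λ.restrict y := by
      funext h
      exact hxy h h.2
    rw [hCeq, mem_cylinder, mem_cylinder, h1]
  · have h1 : (symmDiff E (Subtype.val ⁻¹' C) : Set (FreePart d)) =ᵐ[coin d]
        (symmDiff (Subtype.val ⁻¹' E₂) (Subtype.val ⁻¹' C) : Set (FreePart d)) :=
      hEE₁.symmDiff (ae_eq_refl _)
    have h2 : (symmDiff (Subtype.val ⁻¹' E₂) (Subtype.val ⁻¹' C) : Set (FreePart d)) =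
        Subtype.val ⁻¹' (symmDiff C E₂) := by
      rw [symmDiff_comm]
      rfl
    rw [measureReal_congr h1, h2, Measure.real, coin_val (hCm.symmDiff hE₂)]
    exact (ENNReal.toReal_lt_of_lt_ofReal hlt)

namespace Mix5

theorem inj_window {d : ℕ} (Λ : Finset (G d)) : ∃ q₀ : ℕ, ∀ q ≥ q₀,
    Function.Injective fun p : G d × Λ => (p.2 : G d) + q • p.1 := by
  classical
  refine ⟨2 * (∑ h ∈ Λ, ∑ j, (h j).natAbs) + 1, fun q hq => ?_⟩
  rintro ⟨g, h⟩ ⟨g', h'⟩ heq
  have hB : ∀ h : Λ, ∀ j, (h.1 j).natAbs ≤ ∑ h ∈ Λ, ∑ j, (h j).natAbs := fun h j =>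
    (Finset.single_le_sum (f := fun j => (h.1 j).natAbs) (fun _ _ => Nat.zero_le _)
      (Finset.mem_univ j)).trans
      (Finset.single_le_sum (f := fun h : G d => ∑ j, (h j).natAbs) (fun _ _ => Nat.zero_le _) h.2)
  have hg : g = g' := by
    funext j
    have h1 : h.1 j + (q : ℤ) * g j = h'.1 j + (q : ℤ) * g' j := by
      have := congrFun heq j
      simpa [nsmul_eq_mul] using this
    have h2 : (q : ℤ) * (g j - g' j) = h'.1 j - h.1 j := by linarith
    have h3 := hB h j
    have h4 := hB h' j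
    by_contra hne
    have h5 : 1 ≤ (g j - g' j).natAbs := Int.natAbs_pos.2 (sub_ne_zero.2 hne)
    have h6 : q * (g j - g' j).natAbs = (h'.1 j - h.1 j).natAbs := by
      rw [← h2, Int.natAbs_mul, Int.natAbs_natCast]
    have h7 : (h'.1 j - h.1 j).natAbs ≤ (h'.1 j).natAbs + (h.1 j).natAbs :=
      Int.natAbs_sub_le _ _
    have h8 : q ≤ q * (g j - g' j).natAbs := Nat.le_mul_of_pos_right q h5
    omega
  subst hg
  have hh : h = h' := Subtype.ext (add_right_cancel heq)
  rw [hh]

/-- the set of patterns on `Λ` of a set which depends only on the coordinates in `Λ` -/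
def pat {d : ℕ} (Λ : Finset (G d)) (C : Set (Conf d Bool)) : Set (Λ → Bool) :=
  {w | ∃ x ∈ C, ∀ h : Λ, x h = w h}

theorem mem_pat {d : ℕ} {Λ : Finset (G d)} {C : Set (Conf d Bool)}
    (hC : ∀ x y : Conf d Bool, (∀ h ∈ Λ, x h = y h) → (x ∈ C ↔ y ∈ C)) (x : Conf d Bool) :
    (fun h : Λ => x h) ∈ pat Λ C ↔ x ∈ C := by
  constructor
  · rintro ⟨y, hy, hxy⟩
    exact (hC y x fun h hh => hxy ⟨h, hh⟩).1 hy
  · exact fun hx => ⟨x, hx, fun _ => rfl⟩

theorem measurableSet_pat {d : ℕ} (Λ : Finset (G d)) (C : Set (Conf d Bool)) :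
    MeasurableSet (pat Λ C) := (Set.toFinite _).measurableSet

theorem measurableSet_of_dep {d : ℕ} {Λ : Finset (G d)} {C : Set (Conf d Bool)}
    (hC : ∀ x y : Conf d Bool, (∀ h ∈ Λ, x h = y h) → (x ∈ C ↔ y ∈ C)) : MeasurableSet C := by
  have h1 : C = (fun (x : Conf d Bool) (h : Λ) => x h) ⁻¹' pat Λ C := by
    ext x
    exact (mem_pat hC x).symm
  rw [h1]
  exact (measurable_pi_iff.2 fun h : Λ => measurable_pi_apply (h : G d)) (measurableSet_pat Λ C)

/-- the product measure on patterns -/
noncomputable def nuL {d : ℕ} (Λ : Finset (G d)) : Measure (Λ → Bool) :=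
  Measure.infinitePi (fun _ : Λ => one)

theorem nu_of_dep {d : ℕ} {Λ : Finset (G d)} {C : Set (Conf d Bool)}
    (hC : ∀ x y : Conf d Bool, (∀ h ∈ Λ, x h = y h) → (x ∈ C ↔ y ∈ C)) :
    nu d C = nuL Λ (pat Λ C) := by
  have h1 : (nu d).map (fun (x : Conf d Bool) (h : Λ) => x h) = nuL Λ :=
    Measure.map_infinitePi_infinitePi_of_inj (P := fun _ : G d => one)
      (f := fun h : Λ => (h : G d)) Subtype.val_injective
  rw [← h1, Measure.map_apply (measurable_pi_iff.2 fun h : Λ => measurable_pi_apply (h : G d))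
    (measurableSet_pat Λ C)]
  congr 1
  ext x
  exact (mem_pat hC x).symm

theorem nu_indep {d : ℕ} (Λ : Finset (G d)) (q : ℕ)
    (hq : Function.Injective fun p : G d × Λ => (p.2 : G d) + q • p.1) (s : Finset (G d))
    (C : G d → Set (Conf d Bool))
    (hC : ∀ g, ∀ x y : Conf d Bool, (∀ h ∈ Λ, x h = y h) → (x ∈ C g ↔ y ∈ C g)) :
    nu d {x | ∀ g ∈ s, sh (q • g) x ∈ C g} = ∏ g ∈ s, nu d (C g) := by
  have h1 : (nu d).map (fun (x : Conf d Bool) (p : G d × Λ) => x ((p.2 : G d) + q • p.1)) =
      Measure.infinitePi (fun _ : G d × Λ => one) :=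
    Measure.map_infinitePi_infinitePi_of_inj (P := fun _ : G d => one) hq
  have h2 : (Measure.infinitePi (fun _ : G d × Λ => one)).map
      (MeasurableEquiv.curry (G d) Λ Bool) = Measure.infinitePi fun _ : G d => nuL Λ :=
    Measure.infinitePi_map_curry (fun (_ : G d) (_ : Λ) => one)
  have hm1 : Measurable (fun (x : Conf d Bool) (p : G d × Λ) => x ((p.2 : G d) + q • p.1)) :=
    measurable_pi_iff.2 fun p => measurable_pi_apply _
  have hm2 : Measurable (fun (x : Conf d Bool) (g : G d) (h : Λ) => x ((h : G d) + q • g)) :=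
    measurable_pi_iff.2 fun g => measurable_pi_iff.2 fun h => measurable_pi_apply _
  have h3 : (nu d).map (fun (x : Conf d Bool) (g : G d) (h : Λ) => x ((h : G d) + q • g)) =
      Measure.infinitePi fun _ : G d => nuL Λ := by
    rw [← h2, ← h1, Measure.map_map (MeasurableEquiv.measurable _) hm1]
    rfl
  have : IsProbabilityMeasure (nuL Λ) := by
    unfold nuL
    infer_instance
  have h4 : {x : Conf d Bool | ∀ g ∈ s, sh (q • g) x ∈ C g} =
      (fun (x : Conf d Bool) (g : G d) (h : Λ) => x ((h : G d) + q • g)) ⁻¹'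
        Set.pi (s : Set (G d)) (fun g => pat Λ (C g)) := by
    ext x
    rw [Set.mem_ofPred_eq, mem_preimage, Set.mem_pi]
    refine forall₂_congr fun g _ => ?_
    exact (mem_pat (hC g) (sh (q • g) x)).symm
  rw [h4, ← Measure.map_apply hm2 (MeasurableSet.pi s.countable_toSet
    fun g _ => measurableSet_pat Λ (C g)), h3,
    Measure.infinitePi_pi _ fun g _ => measurableSet_pat Λ (C g)]
  exact Finset.prod_congr rfl fun g _ => (nu_of_dep (hC g)).symm

end Mix5

/-- independence of far away windows -/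
theorem coin_indep {d : ℕ} (Λ : Finset (G d)) : ∃ q₀ : ℕ, ∀ q ≥ q₀, ∀ (s : Finset (G d))
    (C : G d → Set (Conf d Bool)),
    (∀ g, ∀ x y : Conf d Bool, (∀ h ∈ Λ, x h = y h) → (x ∈ C g ↔ y ∈ C g)) →
    (coin d).real {x | ∀ g ∈ s, (act (q • g) x).1 ∈ C g} =
      ∏ g ∈ s, (coin d).real {x | x.1 ∈ C g} := by
  obtain ⟨q₀, hq₀⟩ := inj_window Λ
  refine ⟨q₀, fun q hq s C hC => ?_⟩
  have h1 := nu_indep Λ q (hq₀ q hq) s C hC
  have hm : ∀ g, MeasurableSet (C g) := fun g => measurableSet_of_dep (hC g)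
  have hms : MeasurableSet {x : Conf d Bool | ∀ g ∈ s, sh (q • g) x ∈ C g} := by
    have h2 : {x : Conf d Bool | ∀ g ∈ s, sh (q • g) x ∈ C g} =
        ⋂ g ∈ s, sh (q • g) ⁻¹' C g := by
      ext x
      simp
    rw [h2]
    exact Finset.measurableSet_biInter s fun g _ => measurable_sh (q • g) (hm g)
  have h3 : ({x | ∀ g ∈ s, (act (q • g) x).1 ∈ C g} : Set (FreePart d)) =
      Subtype.val ⁻¹' {x : Conf d Bool | ∀ g ∈ s, sh (q • g) x ∈ C g} := rfl
  have h4 : ∀ g, ({x | x.1 ∈ C g} : Set (FreePart d)) = Subtype.val ⁻¹' C g := fun g => rfl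
  simp only [Measure.real, h3, h4, coin_val hms, coin_val (hm _), h1, ENNReal.toReal_prod]

theorem mix_coin (d : ℕ) {V : Type} (F : FreePart d → V)
    (hF : ∀ v, NullMeasurableSet {x | F x = v} (coin d)) (s : Finset (G d)) (v : G d → V)
    (hv : ∀ g ∈ s, ∃ᶠ x in ae (coin d), F x = v g) :
    ∃ q₀ : ℕ, ∀ q ≥ q₀, ∃ x : FreePart d, ∀ g ∈ s, F (act (q • g) x) = v g := by
  classical
  rcases s.eq_empty_or_nonempty with rfl | hs
  · refine ⟨0, fun q _ => ?_⟩
    obtain ⟨x⟩ : Nonempty (FreePart d) := by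
      by_contra hne
      rw [not_nonempty_iff] at hne
      have h1 := measure_univ (μ := coin d)
      rw [Measure.eq_zero_of_isEmpty (coin d)] at h1
      simp at h1
    exact ⟨x, by simp⟩
  -- positive lower bound of the measures
  have hpos : ∀ g ∈ s, 0 < (coin d).real {x | F x = v g} := fun g hg => by
    exact ENNReal.toReal_pos (frequently_ae_iff.1 (hv g hg)) (measure_ne_top _ _)
  obtain ⟨g₀, hg₀, hmin⟩ := s.exists_min_image (fun g => (coin d).real {x | F x = v g}) hs
  set m : ℝ := (coin d).real {x | F x = v g₀} with hm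
  have hm0 : 0 < m := hpos g₀ hg₀
  set n : ℕ := s.card with hn
  have hn0 : 0 < n := Finset.card_pos.2 hs
  set ε : ℝ := min (m / 2) ((m / 2) ^ n / (2 * n)) with hεdef
  have hn0' : (0 : ℝ) < n := by exact_mod_cast hn0
  have hε : 0 < ε := lt_min (by positivity) (by positivity)
  have hε1 : ε ≤ m / 2 := min_le_left _ _
  have hε2 : (n : ℝ) * ε < (m / 2) ^ n := by
    have h1 : ε ≤ (m / 2) ^ n / (2 * n) := min_le_right _ _
    have h2 : (n : ℝ) * ε ≤ n * ((m / 2) ^ n / (2 * n)) := mul_le_mul_of_nonneg_left h1 hn0'.le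
    have h3 : (n : ℝ) * ((m / 2) ^ n / (2 * n)) = (m / 2) ^ n / 2 := by field_simp
    have h4 : 0 < (m / 2) ^ n := by positivity
    linarith
  -- approximation
  choose! Λ' C hdep hlt using fun g : G d => coin_approx (hF (v g)) hε
  let Λ : Finset (G d) := s.biUnion Λ'
  let C' : G d → Set (Conf d Bool) := fun g => if g ∈ s then C g else Set.univ
  have hC' : ∀ g, ∀ x y : Conf d Bool, (∀ h ∈ Λ, x h = y h) → (x ∈ C' g ↔ y ∈ C' g) := by
    intro g x y hxy
    by_cases hg : g ∈ s
    · simp only [C', if_pos hg]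
      exact hdep g x y fun h hh => hxy h (Finset.mem_biUnion.2 ⟨g, hg, hh⟩)
    · simp [C', if_neg hg]
  obtain ⟨q₀, hq₀⟩ := coin_indep Λ
  refine ⟨q₀, fun q hq => ?_⟩
  have hind := hq₀ q hq s C' hC'
  have hlow : (m / 2) ^ n ≤ ∏ g ∈ s, (coin d).real {x | x.1 ∈ C' g} := by
    rw [hn, ← Finset.prod_const]
    refine Finset.prod_le_prod (fun _ _ => by positivity) fun g hg => ?_
    have h1 : (coin d).real {x | F x = v g} ≤ (coin d).real {x | x.1 ∈ C' g} +
        (coin d).real (symmDiff {x | F x = v g} (Subtype.val ⁻¹' C g)) := by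
      refine le_trans ?_ (measureReal_union_le _ _)
      refine measureReal_mono (fun x hx => ?_)
      by_cases hx' : x.1 ∈ C g
      · left
        simp only [C', if_pos hg]
        exact hx'
      · right
        exact Or.inl ⟨hx, hx'⟩
    have h2 := hlt g
    have h3 := hmin g hg
    linarith
  have hbad : (coin d).real (⋃ g ∈ s, act (q • g) ⁻¹'
      (symmDiff {x | F x = v g} (Subtype.val ⁻¹' C g))) ≤ n * ε := by
    refine (measureReal_biUnion_finset_le _ _).trans ?_
    rw [hn, ← nsmul_eq_mul, ← Finset.sum_const]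
    refine Finset.sum_le_sum fun g _ => ?_
    have hm' : NullMeasurableSet (symmDiff {x | F x = v g} (Subtype.val ⁻¹' C g)) (coin d) :=
      (hF (v g)).symmDiff (measurable_subtype_coe (measurableSet_of_dep (hdep g))).nullMeasurableSet
    rw [(measurePreserving_act (q • g)).measureReal_preimage hm']
    exact (hlt g).le
  by_contra hcon
  push Not at hcon
  have hsub : ({x | ∀ g ∈ s, (act (q • g) x).1 ∈ C' g} : Set (FreePart d)) ⊆
      ⋃ g ∈ s, act (q • g) ⁻¹' (symmDiff {x | F x = v g} (Subtype.val ⁻¹' C g)) := by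
    intro x hx
    obtain ⟨g, hg, hne⟩ := hcon x
    rw [mem_iUnion₂]
    refine ⟨g, hg, Or.inr ⟨?_, hne⟩⟩
    have h1 := hx g hg
    simp only [C', if_pos hg] at h1
    exact h1
  have hfin := measureReal_mono (μ := coin d) hsub (measure_ne_top _ _)
  rw [hind] at hfin
  linarith

end Pool.Agent.H62.BS
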