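import Pool.Agent.H62.BS.Const

/-!
Subshifts of zero entropy (helper62).
-/

set_option autoImplicit false

open MeasureTheory Topology Filter Set

namespace Pool.Agent.H62.BS

/-- The number of patterns of `S` on the ball of radius `n`. -/
noncomputable def patternCount {d : ℕ} {A : Type} (S : Set (Conf d A)) (n : ℕ) : ℕ :=
  Set.ncard ((fun (x : Conf d A) (g : ball d n) => x g) '' S)

/-- `S` has topological entropy zero. -/
def ZeroEntropy {d : ℕ} {A : Type} (S : Set (Conf d A)) : Prop :=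
  Tendsto (fun n : ℕ => Real.log (patternCount S n) / ((2 * n + 1 : ℕ) : ℝ) ^ d) atTop (𝓝 0)

instance borelSpace_freePart (d : ℕ) : BorelSpace (FreePart d) := inferInstance

theorem BorelMap.baireMap {d : ℕ} {A : Type} [TopologicalSpace A] {S : Set (Conf d A)}
    (h : BorelMap S) : BaireMap S := by
  obtain ⟨T, h1, h2, h3⟩ := h
  exact ⟨T, h1, h2, fun B hB => (h3 B hB).baireMeasurableSet⟩

theorem BorelMap.measMap {d : ℕ} {A : Type} [TopologicalSpace A] {S : Set (Conf d A)}
    (h : BorelMap S) (μ : Measure (FreePart d)) : MeasMap μ S := by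
  obtain ⟨T, h1, h2, h3⟩ := h
  exact ⟨T, h1, h2, fun B hB => (h3 B hB).nullMeasurableSet⟩

theorem borelMap_of_const {d : ℕ} {A : Type} [TopologicalSpace A] {S : Set (Conf d A)} {a : A}
    (ha : (fun _ => a) ∈ S) : BorelMap S := by
  refine ⟨fun _ _ => a, fun _ => ha, fun g x => rfl, fun B _ => ?_⟩
  exact MeasurableSet.const _

theorem measurableSet_apply_eq {d : ℕ} {A : Type} [TopologicalSpace A] [DiscreteTopology A]
    (h : G d) (a : A) : MeasurableSet[borel (Conf d A)] {z : Conf d A | z h = a} := by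
  have h0 : Continuous fun z : Conf d A => z h := continuous_apply h
  have h1 : IsOpen {z : Conf d A | z h = a} := (isOpen_discrete ({a} : Set A)).preimage h0
  exact MeasurableSpace.measurableSet_generateFrom h1

/-- the key implication for a filter -/
theorem const_of_zeroEntropy {d : ℕ} {A : Type} [Finite A] [TopologicalSpace A]
    [DiscreteTopology A] {S : Set (Conf d A)} (h0 : ZeroEntropy S)
    {ℱ : Filter (FreePart d)} [NeBot ℱ]
    (hall : ∀ p : FreePart d → Prop, (∀ᶠ x in ℱ, p x) → ∀ᶠ x in ℱ, ∀ g, p (act g x))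
    {good : Set (FreePart d) → Prop}
    (hconst : ∀ F : FreePart d → A, (∀ v, good {x | F x = v}) →
      (∀ ε : ℝ, 0 < ε → ∃ᶠ n : ℕ in atTop,
        ((patterns F n).ncard : ℝ) ≤ Real.exp (ε * ((2 * n + 1 : ℕ) : ℝ) ^ d)) →
      ∃ v, ∀ᶠ x in ℱ, F x = v)
    (hmap : HasMap good S) : ∃ a : A, (fun _ => a) ∈ S := by
  obtain ⟨T, h1, h2, h3⟩ := hmap
  have hFT : ∀ x g, T (act g x) 0 = T x g := by
    intro x g
    rw [h2]
    simp [sh]
  obtain ⟨a, ha⟩ := hconst (fun x => T x 0) (fun v => h3 _ (measurableSet_apply_eq 0 v)) (by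
    intro ε hε
    refine Eventually.frequently ?_
    have h4 : ∀ᶠ n : ℕ in atTop,
        Real.log (patternCount S n) / ((2 * n + 1 : ℕ) : ℝ) ^ d < ε :=
      (tendsto_order.1 h0).2 ε hε
    filter_upwards [h4] with n hn
    have hN : (0 : ℝ) < ((2 * n + 1 : ℕ) : ℝ) ^ d := by positivity
    have h5 : (patterns (fun x => T x 0) n).ncard ≤ patternCount S n := by
      refine Set.ncard_le_ncard ?_ (Set.toFinite _)
      rintro w ⟨x, rfl⟩
      refine ⟨T x, h1 x, ?_⟩
      funext g
      exact (hFT x g).symm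
    have h6 : 0 < patternCount S n := by
      obtain ⟨x, -⟩ := (inferInstance : NeBot ℱ).nonempty_of_mem univ_mem
      rw [patternCount, Set.ncard_pos (Set.toFinite _)]
      exact ⟨_, T x, h1 x, rfl⟩
    rw [div_lt_iff₀ hN, Real.log_lt_iff_lt_exp (by exact_mod_cast h6)] at hn
    exact (by exact_mod_cast h5 : _ ≤ (patternCount S n : ℝ)).trans hn.le)
  obtain ⟨x, hx⟩ := (hall _ ha).exists
  refine ⟨a, ?_⟩
  have h7 : T x = fun _ => a := by
    funext g
    rw [← hFT x g]
    exact hx g
  rw [← h7]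
  exact h1 x

end Pool.Agent.H62.BS
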